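import Mathlib
set_option autoImplicit false
namespace Pool.Agent.Helper84.KBL

/-- Integral coordinates of three lattice vectors. -/
theorem exists_coord (L : Submodule ℤ (Fin 3 → ℝ)) [DiscreteTopology L] [IsZLattice ℝ L]
    (b : Fin 3 → (Fin 3 → ℝ)) (hb : ∀ i, b i ∈ L) :
    ∃ C : Matrix (Fin 3) (Fin 3) ℤ,
      |(Matrix.of b).det| = |(C.det : ℝ)| * ZLattice.covolume L ∧
      ∀ (n : ℤ) (r : Fin 3 → ℤ), (∀ j, n ∣ ∑ i, r i * C i j) →
        ∃ w ∈ L, (n : ℝ) • w = ∑ i, (r i : ℝ) • b i := by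
  classical
  let B := IsZLattice.basis L
  let C : Matrix (Fin 3) (Fin 3) ℤ := fun i j => B.repr ⟨b i, hb i⟩ j
  have hC : ∀ i, b i = ∑ j, (C i j : ℝ) • ((B j : L) : Fin 3 → ℝ) := by
    intro i
    have h := B.sum_repr ⟨b i, hb i⟩
    have h2 := congrArg (fun x : L => (x : Fin 3 → ℝ)) h
    simp only [Submodule.coe_sum, Submodule.coe_smul] at h2
    rw [← h2]
    refine Finset.sum_congr rfl (fun j _ => ?_)
    rw [Int.cast_smul_eq_zsmul]
  refine ⟨C, ?_, ?_⟩
  · have hcov := ZLattice.covolume_eq_det L B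
    have hmul : Matrix.of b = (C.map (Int.cast : ℤ → ℝ)) * Matrix.of ((↑) ∘ B) := by
      ext i k
      rw [Matrix.mul_apply, Matrix.of_apply, hC i]
      simp [Finset.sum_apply]
    rw [hmul, Matrix.det_mul, abs_mul, hcov]
    congr 2
    have := (Int.castRingHom ℝ).map_det C
    simpa using this.symm
  · intro n r hr
    choose k hk using hr
    refine ⟨∑ j, (k j) • ((B j : L) : Fin 3 → ℝ), ?_, ?_⟩
    · exact Submodule.sum_mem _ (fun j _ => Submodule.smul_mem _ _ (B j).2)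
    · simp only [hC]
      ext x
      simp only [Pi.smul_apply, Finset.sum_apply, smul_eq_mul, Finset.mul_sum]
      rw [Finset.sum_comm]
      refine Finset.sum_congr rfl (fun j _ => ?_)
      have hk' : (∑ i, (r i : ℝ) * (C i j : ℝ)) = n * (k j : ℝ) := by
        have := hk j
        exact_mod_cast this
      simp only [zsmul_eq_mul]
      rw [← mul_assoc]
      calc (n : ℝ) * (k j : ℝ) * ((B j : L) : Fin 3 → ℝ) x
          = (∑ i, (r i : ℝ) * (C i j : ℝ)) * ((B j : L) : Fin 3 → ℝ) x := by rw [hk']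
        _ = ∑ i, (r i : ℝ) * ((C i j : ℝ) * ((B j : L) : Fin 3 → ℝ) x) := by
          rw [Finset.sum_mul]
          refine Finset.sum_congr rfl (fun i _ => ?_)
          ring

/-- A determinant divisible by three gives a nonzero combination of rows with coefficients in
`{-1, 0, 1}` divisible by three. -/
theorem exists_comb3 (C : Matrix (Fin 3) (Fin 3) ℤ) (hC : (3 : ℤ) ∣ C.det) :
    ∃ r : Fin 3 → ℤ, (∀ i, r i = -1 ∨ r i = 0 ∨ r i = 1) ∧ r ≠ 0 ∧
      ∀ j, (3 : ℤ) ∣ ∑ i, r i * C i j := by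
  have h0 : (C.map (Int.castRingHom (ZMod 3))).det = 0 := by
    have h1 := (Int.castRingHom (ZMod 3)).map_det C
    rw [RingHom.mapMatrix_apply] at h1
    rw [← h1]
    simpa using (ZMod.intCast_zmod_eq_zero_iff_dvd C.det 3).2 (by exact_mod_cast hC)
  have : Fact (Nat.Prime 3) := ⟨Nat.prime_three⟩
  obtain ⟨v, hv, hvC⟩ := Matrix.exists_vecMul_eq_zero_iff.2 h0
  refine ⟨fun i => (v i).valMinAbs, ?_, ?_, ?_⟩
  · intro i
    have h : ∀ x : ZMod 3, x.valMinAbs = -1 ∨ x.valMinAbs = 0 ∨ x.valMinAbs = 1 := by decide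
    exact h (v i)
  · intro h
    apply hv
    ext i
    have h2 := congrFun h i
    simp only [Pi.zero_apply] at h2
    have h3 : v i = 0 := (ZMod.valMinAbs_eq_zero _).1 h2
    rw [h3]; rfl
  · intro j
    have h2 := congrFun hvC j
    rw [Matrix.vecMul, dotProduct] at h2
    have h3 : (((∑ i, ((v i).valMinAbs : ℤ) * C i j : ℤ)) : ZMod 3) = 0 := by
      push_cast
      refine Eq.trans (Finset.sum_congr rfl (fun i _ => ?_)) h2
      simp
    exact_mod_cast (ZMod.intCast_zmod_eq_zero_iff_dvd _ 3).1 h3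

end Pool.Agent.Helper84.KBL
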