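import Pool.Agent.Helper84.Tet.Defs
import Pool.Agent.Helper99.SPC.OutForms
set_option autoImplicit false
set_option maxRecDepth 100000
namespace Pool.Agent.Helper84.KBL
open Pool.Agent.Helper84.Tet (OutD)
open Pool.Agent.Helper99.SPC

/-- the linear hypotheses of `no_half` -/
def halfBase : List Con := [(false, [1, 0, 0, 0, 0, 0, 0, 0, 0, -2]), (false, [-20, 0, 0, 0, 0, 0, 0, 0, 0, 53]), (false, [0, 0, 0, 0, 1, 0, 0, 0, 0, -2]), (false, [0, 0, 0, 0, -20, 0, 0, 0, 0, 53]), (false, [0, 0, 0, 0, 0, 0, 0, 0, 1, -2]), (false, [0, 0, 0, 0, 0, 0, 0, 0, -20, 53]), (true, [-1, -1, -1, 0, 0, 0, 0, 0, 0, 4]), (true, [-1, -1, 1, 0, 0, 0, 0, 0, 0, 4]), (true, [-1, 1, -1, 0, 0, 0, 0, 0, 0, 4]), (true, [-1, 1,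 1, 0, 0, 0, 0, 0, 0, 4]), (true, [0, 0, 0, -1, -1, -1, 0, 0, 0, 4]), (true, [0, 0, 0, -1, -1, 1, 0, 0, 0, 4]), (true, [0, 0, 0, 1, -1, -1, 0, 0, 0, 4]), (true, [0, 0, 0, 1, -1, 1, 0, 0, 0, 4]), (true, [0, 0, 0, 0, 0, 0, -1, -1, -1, 4]), (true, [0, 0, 0, 0, 0, 0, -1, 1, -1, 4]), (true, [0, 0, 0, 0, 0, 0, 1, -1, -1, 4]), (true, [0, 0, 0, 0, 0, 0, 1, 1, -1, 4])]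

/-- the case tree of `no_half` -/
def halfTree : T := (.node 0 (.cons (.node 3 (.cons (.leaf [10, 10, 0, 1] 27) (.cons (.leaf [2, 0, 2, 0, 2, 0, 2, 0, 0, 0, 0, 0, 1, 1, 0, 0, 1, 1] 4) (.cons (.leaf [2, 2, 0, 0, 4, 0, 2, 0, 1, 1, 0, 0, 1, 1, 0, 0, 0, 2] 4) (.cons (.node 1 (.cons (.node 2 (.cons (.leaf [10, 10, 0, 0, 0, 1] 27) (.cons (.leaf [1, 0, 0, 1, 0, 0, 2, 0, 0, 0, 0, 0, 0, 0, 1, 1] 4) (.cons (.leaf [1, 0, 1, 0, 0, 0, 0, 0, 2, 0, 0, 0, 0, 0, 0, 0, 0, 0, 1, 0, 1] 4) (.cons (.leaf [1, 1, 1, 1, 0, 0, 0, 0, 0, 0, 0, 0, 1, 1, 1, 1] 0) (.cons (.leaf [1, 0, 1, 1, 0, 0, 0, 0, 0, 0, 0, 0, 1, 0, 0, 1, 0, 0, 1] 0) (.cons (.leaf [2, 1, 0, 1, 0, 0, 2, 0, 2, 0, 0, 1, 0, 1, 2] 8) (.cons (.leaf [10, 0, 20,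 20, 0, 1, 0, 0, 20, 0, 0, 0, 10, 0, 0, 10, 0, 0, 30] 27) (.cons (.leaf [1, 0, 0, 0, 2, 0, 2, 0, 0, 0, 1, 0, 0, 0, 0, 1, 0, 0, 0, 0, 1] 4) (.cons (.leaf [20, 30, 20, 10, 0, 1, 0, 1, 0, 1, 0, 0, 30, 10, 0, 20] 1) (.cons (.leaf [20, 20, 20, 40, 0, 0, 40, 0, 0, 1, 0, 0, 30, 10, 30, 50] 27) (.cons (.leaf [10, 20, 0, 0, 0, 1, 20, 0, 20, 0, 0, 10, 0, 0, 10, 0, 0, 0, 0, 0, 10] 67) (.cons (.leaf [1, 0, 0, 0, 2, 0, 2, 0, 2, 0, 0, 1, 0, 0, 1, 0, 0, 0, 0, 0, 1] 8) (.cons (.leaf [20, 30, 20, 10, 0, 1, 0, 1, 20, 0, 0, 0, 10, 30, 20] 94) (.cons (.leaf [2, 2, 2, 4, 0, 0, 4, 0, 2, 0, 0, 0, 1, 3, 5, 3] 12) .nil))))))))))))))) (.cons (.leaf [1, 0, 1, 0, 0, 0, 0, 2, 0, 0, 0, 0, 0, 0, 0, 0, 0, 1, 1] 4) (.cons (.leaf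 [10, 10, 0, 0, 0, 0, 1] 27) (.cons (.leaf [2, 0, 2, 0, 0, 4, 0, 2, 0, 0, 0, 1, 1, 1, 1, 0, 0, 2] 4) (.cons (.leaf [2, 0, 0, 2, 0, 2, 0, 2, 0, 1, 0, 1, 0, 1, 0, 1] 4) (.cons (.leaf [1, 1, 1, 0, 0, 0, 0, 0, 0, 0, 0, 0, 1, 0, 1, 0, 0, 1] 0) (.cons (.leaf [20, 20, 20, 0, 1, 0, 0, 20, 0, 10, 0, 10, 0, 30, 10] 67) (.cons (.leaf [10, 20, 20, 0, 0, 0, 1, 40, 0, 0, 0, 10, 0, 10, 0, 0, 0, 20, 10] 67) (.cons (.leaf [1, 0, 0, 0, 0, 2, 0, 2, 0, 0, 0, 1, 0, 1, 0, 0, 0, 0, 0, 1] 4) (.cons (.leaf [1, 2, 2, 2, 0, 0, 0, 4, 0, 0, 0, 2, 1, 1, 0, 0, 0, 3] 8) (.cons (.node 2 (.cons (.leaf [10, 10, 20, 10, 0, 1, 0, 1, 0, 0, 0, 0, 0, 10, 0, 10, 0, 0, 10] 14) (.cons (.leaf [1, 1, 2, 1, 0, 0, 0, 0, 0, 0, 0, 0, 0, 1, 1, 2,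 0, 0, 0, 0, 1] 4) (.cons (.leaf [1, 1, 1, 0, 0, 0, 0, 0, 0, 0, 0, 1, 0, 0, 0, 1, 0, 0, 0, 0, 1] 4) (.cons (.leaf [10, 20, 30, 20, 0, 1, 0, 1, 0, 1, 0, 0, 0, 20, 10, 30] 1) (.cons (.leaf [10, 10, 10, 10, 0, 1, 0, 0, 0, 1, 0, 0, 0, 0, 0, 20] 14) (.cons (.leaf [3, 1, 1, 1, 2, 0, 0, 0, 2, 0, 0, 2, 0, 2, 2] 12) (.cons (.leaf [5, 5, 10, 10, 0, 1, 0, 0, 0, 0, 0, 0, 0, 0, 0, 10, 0, 0, 10] 27) (.cons (.leaf [1, 1, 2, 0, 0, 0, 0, 0, 0, 0, 0, 0, 0, 0, 0, 2, 0, 0, 0, 0, 2] 8) (.cons (.leaf [5, 15, 20, 10, 0, 1, 0, 1, 0, 1, 0, 0, 0, 10, 0, 20] 1) (.cons (.leaf [5, 15, 20, 20, 0, 1, 0, 0, 0, 1, 0, 0, 0, 10, 10, 30] 14) (.cons (.leaf [1, 1, 0, 0, 0, 0, 0, 0, 0, 0, 0, 2] 8) (.cons (.leaf [1, 3, 4, 2, 0, 0, 0, 0,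 0, 0, 0, 2, 0, 2, 2, 4, 0, 0, 0, 0, 2] 8) (.cons (.leaf [5, 5, 10, 0, 0, 0, 0, 1, 0, 0, 0, 0, 0, 10] 27) (.cons (.leaf [1, 1, 2, 2, 0, 0, 0, 0, 0, 0, 0, 0, 0, 2, 2, 2] 8) .nil))))))))))))))) (.cons (.leaf [10, 20, 0, 20, 0, 0, 1, 0, 0, 0, 0, 0, 10, 0, 0, 0, 10, 10] 27) (.cons (.leaf [1, 0, 0, 0, 0, 2, 0, 0, 0, 0, 0, 0, 1, 0, 1, 0, 0, 0, 0, 1] 0) (.cons (.leaf [1, 2, 2, 2, 0, 0, 0, 2, 0, 0, 0, 1, 2, 0, 1, 0, 0, 3] 4) .nil))))))))))))))) (.cons (.leaf [2, 2, 0, 0, 2, 0, 4, 0, 1, 0, 1, 0, 0, 2, 0, 0, 1, 1] 4) (.cons (.node 2 (.cons (.node 1 (.cons (.leaf [10, 10, 0, 0, 0, 1] 27) (.cons (.leaf [1, 0, 0, 1, 0, 0, 0, 0, 2, 0, 0, 0, 0, 0, 0, 0, 0, 0, 1, 1] 4) (.cons (.leaf [1, 0, 1, 1, 0, 0, 0, 0, 0, 0,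 0, 1, 0, 0, 1, 0, 0, 0, 0, 1] 0) (.cons (.leaf [2, 1, 0, 1, 0, 0, 2, 0, 2, 0, 0, 0, 1, 1, 0, 0, 0, 0, 2] 8) (.cons (.leaf [1, 0, 1, 0, 0, 0, 2, 0, 0, 0, 0, 0, 0, 0, 1, 0, 1] 4) (.cons (.leaf [1, 1, 1, 1, 0, 0, 0, 0, 0, 0, 0, 1, 0, 1, 0, 0, 0, 0, 1, 1] 0) (.cons (.leaf [10, 10, 0, 10, 0, 1, 0, 0, 20, 0, 10, 0, 0, 0, 10, 0, 0, 0, 0, 10] 27) (.cons (.leaf [1, 1, 0, 1, 0, 0, 0, 0, 4, 0, 1, 0, 0, 0, 0, 0, 1, 0, 1, 2] 4) (.cons (.leaf [10, 0, 20, 20, 0, 1, 40, 0, 0, 0, 0, 0, 0, 10, 30, 0, 0, 0, 10] 67) (.cons (.leaf [1, 0, 2, 0, 2, 0, 4, 0, 0, 0, 0, 0, 0, 1, 1, 0, 2, 0, 1] 8) (.cons (.leaf [20, 30, 20, 10, 0, 1, 0, 1, 0, 1, 0, 30, 0, 10, 0, 0, 0, 0, 0, 20] 1) (.cons (.leaf [20, 20, 20, 40, 0, 0, 0, 1,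 40, 0, 0, 30, 0, 10, 0, 0, 0, 0, 30, 50] 27) (.cons (.leaf [20, 30, 20, 10, 0, 1, 20, 0, 0, 1, 0, 10, 0, 30, 0, 0, 0, 0, 20] 94) (.cons (.leaf [2, 0, 2, 2, 4, 0, 2, 0, 0, 0, 0, 1, 0, 3, 0, 0, 0, 0, 3, 1] 12) .nil))))))))))))))) (.cons (.leaf [1, 0, 1, 0, 0, 2, 0, 0, 0, 0, 0, 0, 0, 1, 1] 4) (.cons (.leaf [1, 1, 1, 0, 0, 2, 0, 0, 0, 0, 1, 0, 0, 1, 0, 0, 0, 1] 4) (.cons (.leaf [1, 1, 1, 0, 0, 0, 0, 0, 0, 0, 0, 0, 1, 1, 0, 0, 0, 0, 1] 0) (.cons (.leaf [10, 10, 0, 0, 0, 0, 0, 0, 1] 27) (.cons (.leaf [2, 0, 0, 2, 0, 2, 0, 2, 0, 0, 1, 0, 1, 1, 0, 1] 4) (.cons (.leaf [20, 20, 20, 0, 1, 20, 0, 0, 0, 10, 10, 0, 0, 0, 0, 0, 0, 30, 10] 67) (.cons (.leaf [10, 20, 20, 0, 0, 40, 0, 0, 1, 0, 10, 0, 0, 20, 10, 0,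 0, 10] 67) (.cons (.node 1 (.cons (.leaf [10, 10, 20, 10, 0, 1, 0, 0, 0, 1, 0, 0, 0, 10, 10, 0, 0, 0, 0, 10] 14) (.cons (.leaf [1, 1, 2, 1, 0, 0, 0, 0, 0, 0, 0, 0, 0, 1, 0, 0, 1, 0, 1, 2] 4) (.cons (.leaf [10, 10, 10, 10, 0, 1, 0, 1, 0, 0, 0, 0, 0, 0, 0, 0, 0, 0, 0, 20] 14) (.cons (.leaf [3, 1, 1, 1, 2, 0, 2, 0, 0, 0, 0, 0, 2, 2, 0, 0, 0, 0, 2] 12) (.cons (.leaf [1, 1, 1, 0, 0, 0, 0, 0, 0, 0, 0, 0, 1, 0, 0, 0, 1, 0, 0, 1] 4) (.cons (.leaf [10, 20, 30, 20, 0, 1, 0, 1, 0, 1, 0, 0, 0, 20, 0, 0, 0, 0, 10, 30] 1) (.cons (.leaf [5, 5, 10, 10, 0, 1, 0, 0, 0, 0, 0, 0, 0, 0, 10, 0, 0, 0, 0, 10] 27) (.cons (.leaf [1, 1, 2, 0, 0, 0, 0, 0, 0, 0, 0, 0, 0, 0, 0, 0, 2, 0, 0, 2] 8) (.cons (.leaf [1, 1, 0, 0, 0,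 0, 0, 0, 0, 0, 0, 0, 2] 8) (.cons (.leaf [1, 3, 4, 2, 0, 0, 0, 0, 0, 0, 0, 0, 2, 2, 0, 0, 2, 0, 2, 4] 8) (.cons (.leaf [5, 15, 20, 10, 0, 1, 0, 1, 0, 1, 0, 0, 0, 10, 0, 0, 0, 0, 0, 20] 1) (.cons (.leaf [5, 15, 20, 20, 0, 1, 0, 1, 0, 0, 0, 0, 0, 10, 0, 0, 0, 0, 10, 30] 14) (.cons (.leaf [5, 5, 10, 0, 0, 0, 0, 0, 0, 1, 0, 0, 0, 10] 27) (.cons (.leaf [1, 1, 2, 2, 0, 0, 0, 0, 0, 0, 0, 0, 0, 2, 0, 0, 0, 0, 2, 2] 8) .nil))))))))))))))) (.cons (.leaf [10, 20, 0, 20, 0, 0, 0, 0, 1, 0, 0, 0, 10, 10, 0, 0, 0, 0, 0, 0, 10] 27) (.cons (.leaf [1, 0, 0, 0, 0, 2, 0, 2, 0, 0, 1, 0, 0, 0, 0, 1, 0, 1] 4) (.cons (.leaf [1, 2, 2, 2, 0, 4, 0, 0, 0, 0, 2, 0, 1, 3, 0, 0, 0, 1] 8) (.cons (.leaf [1, 0, 0, 0, 0, 0, 0, 2,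 0, 0, 0, 0, 1, 0, 0, 1, 0, 0, 1] 0) (.cons (.leaf [1, 2, 2, 2, 0, 2, 0, 0, 0, 0, 1, 0, 2, 3, 0, 0, 0, 0, 1] 4) .nil))))))))))))))) (.cons (.leaf [10, 20, 0, 1, 20, 0, 20, 0, 10, 0, 0, 0, 0, 10, 0, 0, 0, 10] 67) (.cons (.leaf [1, 0, 2, 0, 2, 0, 2, 0, 1, 0, 0, 0, 0, 1, 0, 0, 0, 1] 8) (.cons (.leaf [10, 20, 0, 1, 0, 0, 20, 0, 0, 0, 10, 0, 0, 10, 0, 0, 10] 27) (.cons (.leaf [1, 0, 2, 0, 0, 0, 2, 0, 0, 0, 1, 0, 0, 1, 0, 0, 1] 4) (.cons (.leaf [10, 20, 0, 1, 20, 0, 0, 0, 0, 10, 0, 0, 10, 0, 0, 0, 0, 10] 27) (.cons (.leaf [1, 0, 2, 0, 2, 0, 0, 0, 0, 1, 0, 0, 1, 0, 0, 0, 0, 1] 4) (.cons (.node 1 (.cons (.node 2 (.cons (.leaf [10, 10, 0, 0, 0, 1] 27) (.cons (.leaf [1, 0, 1, 1, 0, 0, 0, 0, 0, 0, 0, 0, 0, 1,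 1, 0, 0, 0, 0, 0, 1] 4) (.cons (.leaf [20, 20, 10, 0, 0, 1, 20, 0, 20, 0, 0, 10, 0, 0, 10, 0, 0, 0, 0, 0, 30] 67) (.cons (.leaf [20, 10, 20, 30, 0, 1, 0, 1, 0, 1, 0, 0, 10, 30, 20] 1) (.cons (.leaf [20, 10, 10, 10, 0, 1, 0, 0, 0, 1, 0, 0, 10, 0, 0, 10, 0, 0, 0, 0, 10] 14) (.cons (.leaf [2, 1, 0, 1, 0, 0, 2, 0, 2, 0, 0, 1, 0, 1, 2] 8) (.cons (.leaf [5, 10, 5, 0, 0, 1, 0, 0, 0, 0, 0, 0, 0, 0, 0, 0, 0, 0, 0, 0, 10] 27) (.cons (.leaf [1, 0, 1, 0, 0, 0, 0, 0, 0, 0, 0, 0, 0, 0, 0, 0, 0, 0, 0, 0, 2] 8) (.cons (.leaf [10, 10, 10, 10, 0, 1, 0, 1, 0, 1, 0, 0, 10, 10] 1) (.cons (.leaf [10, 0, 10, 20, 0, 0, 0, 0, 0, 1, 0, 0, 10, 10, 10, 10] 27) (.cons (.leaf [10, 10, 0, 10, 0, 1, 20, 0, 20, 0, 0, 10, 0, 0, 10,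 0, 0, 0, 10] 67) (.cons (.leaf [1, 1, 1, 1, 0, 0, 2, 0, 2, 0, 0, 1, 0, 1, 2, 0, 0, 0, 0, 0, 2] 8) (.cons (.leaf [5, 10, 5, 10, 0, 1, 0, 0, 0, 0, 0, 0, 0, 10, 10] 27) (.cons (.leaf [1, 0, 1, 2, 0, 0, 0, 0, 0, 0, 0, 0, 0, 2, 2] 8) .nil))))))))))))))) (.cons (.leaf [1, 1, 1, 0, 0, 0, 0, 0, 0, 0, 0, 0, 1, 0, 0, 1, 0, 1] 4) (.cons (.leaf [20, 10, 20, 0, 1, 0, 1, 0, 0, 0, 10, 0, 0, 10, 0, 0, 0, 0, 10] 14) (.cons (.leaf [2, 0, 2, 0, 0, 4, 0, 2, 0, 0, 0, 1, 1, 1, 1, 0, 0, 2] 4) (.cons (.leaf [20, 10, 20, 0, 1, 20, 0, 20, 0, 0, 0, 10, 0, 20, 0, 10, 0, 10] 67) (.cons (.node 2 (.cons (.leaf [10, 20, 20, 30, 0, 1, 0, 1, 0, 1, 0, 10, 0, 30, 0, 0, 0, 0, 20] 1) (.cons (.leaf [1, 0, 1, 1, 0, 0, 0, 0, 0, 0, 0, 0,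 0, 1, 1, 0, 0, 0, 0, 0, 1] 4) (.cons (.leaf [1, 1, 1, 1, 0, 0, 0, 0, 0, 0, 0, 1, 0, 1, 0, 0, 0, 0, 1, 0, 1] 4) (.cons (.leaf [10, 10, 10, 10, 0, 0, 0, 1, 0, 1, 0, 0, 0, 20] 14) (.cons (.leaf [20, 0, 10, 20, 0, 1, 0, 0, 0, 1, 0, 0, 10, 0, 0, 10, 0, 0, 10] 14) (.cons (.leaf [1, 1, 1, 2, 0, 0, 0, 0, 0, 0, 0, 1, 0, 2, 1, 0, 0, 0, 1] 4) (.cons (.leaf [5, 0, 5, 10, 0, 1, 0, 0, 0, 0, 0, 0, 0, 0, 0, 0, 0, 0, 10] 27) (.cons (.leaf [1, 0, 1, 0, 0, 0, 0, 0, 0, 0, 0, 0, 0, 0, 0, 0, 0, 0, 0, 0, 2] 8) (.cons (.leaf [5, 10, 15, 20, 0, 1, 0, 1, 0, 1, 0, 0, 0, 20, 0, 0, 0, 0, 10] 1) (.cons (.leaf [5, 10, 5, 10, 0, 0, 0, 0, 0, 1, 0, 0, 0, 10, 0, 10] 27) (.cons (.leaf [1, 2, 1, 2, 0, 0, 0, 0, 0, 0, 0, 2, 0, 2, 0, 0,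 0, 0, 2] 8) (.cons (.leaf [1, 2, 3, 4, 0, 0, 0, 0, 0, 0, 0, 2, 0, 4, 2, 0, 0, 0, 2, 0, 2] 8) (.cons (.leaf [10, 20, 10, 20, 0, 0, 0, 1, 0, 0, 0, 10, 0, 30, 0, 0, 0, 0, 10, 10] 27) (.cons (.leaf [1, 0, 1, 2, 0, 0, 0, 0, 0, 0, 0, 0, 0, 2, 2] 8) .nil))))))))))))))) (.cons (.leaf [5, 5, 10, 0, 1, 0, 0, 0, 0, 0, 0, 0, 0, 10] 27) (.cons (.leaf [1, 1, 0, 0, 0, 0, 0, 0, 0, 0, 0, 0, 0, 0, 0, 2] 8) (.cons (.leaf [1, 0, 0, 0, 0, 2, 0, 2, 0, 0, 0, 1, 0, 1, 0, 0, 0, 0, 0, 1] 4) (.cons (.leaf [1, 1, 2, 0, 0, 2, 0, 2, 0, 0, 0, 1, 1, 1, 0, 1, 0, 2] 8) (.cons (.node 2 (.cons (.leaf [10, 10, 10, 10, 0, 1, 0, 1, 0, 1, 0, 10, 0, 10] 1) (.cons (.leaf [1, 0, 1, 1, 0, 0, 0, 0, 0, 0, 0, 0, 0, 1, 1, 0, 0, 0, 0, 0, 1] 4)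 (.cons (.leaf [2, 1, 1, 0, 0, 0, 0, 0, 0, 0, 0, 2, 0, 0, 0, 0, 0, 0, 0, 0, 2] 8) (.cons (.leaf [10, 5, 15, 20, 0, 1, 0, 1, 0, 1, 0, 0, 0, 20, 10] 1) (.cons (.leaf [10, 5, 5, 10, 0, 1, 0, 0, 0, 1, 0, 0, 0, 0, 0, 10] 14) (.cons (.leaf [2, 1, 1, 2, 0, 0, 0, 0, 0, 0, 0, 2, 0, 2, 2] 8) (.cons (.leaf [5, 0, 5, 10, 0, 1, 0, 0, 0, 0, 0, 0, 0, 0, 0, 0, 0, 0, 10] 27) (.cons (.leaf [1, 0, 1, 0, 0, 0, 0, 0, 0, 0, 0, 0, 0, 0, 0, 0, 0, 0, 0, 0, 2] 8) (.cons (.leaf [5, 5, 10, 10, 0, 1, 0, 1, 0, 1, 0, 0, 0, 10] 1) (.cons (.leaf [5, 5, 10, 20, 0, 1, 0, 0, 0, 1, 0, 0, 0, 10, 10, 10] 14) (.cons (.leaf [1, 1, 0, 0, 0, 0, 0, 0, 0, 0, 0, 2] 8) (.cons (.leaf [1, 1, 2, 2, 0, 0, 0, 0, 0, 0, 0, 2, 0, 2, 2, 0, 0, 0, 0, 0,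 2] 8) (.cons (.leaf [10, 10, 10, 20, 0, 1, 0, 1, 0, 0, 0, 10, 0, 20, 10, 0, 0, 0, 0, 10] 14) (.cons (.leaf [1, 0, 1, 2, 0, 0, 0, 0, 0, 0, 0, 0, 0, 2, 2] 8) .nil))))))))))))))) (.cons (.leaf [10, 10, 20, 0, 0, 0, 1, 0, 0, 0, 10, 0, 10, 0, 0, 0, 0, 10, 10] 27) (.cons (.leaf [1, 1, 0, 0, 0, 0, 0, 0, 0, 0, 0, 0, 2, 0, 0, 0, 0, 0, 0, 2] 0) (.cons (.leaf [1, 1, 2, 0, 0, 0, 0, 0, 0, 0, 0, 0, 2, 0, 0, 0, 0, 2] 8) .nil))))))))))))))) (.cons (.leaf [1, 0, 2, 0, 0, 0, 0, 0, 0, 0, 0, 1, 1, 0, 0, 0, 1] 0) .nil))))))))))))))) (.cons (.leaf [2, 2, 0, 2, 0, 2, 0, 0, 0, 0, 0, 0, 0, 1, 1, 0, 0, 1, 1] 4) (.cons (.node 2 (.cons (.node 1 (.cons (.leaf [10, 10, 0, 0, 1] 27) (.cons (.leaf [2, 0, 2, 4, 0, 0, 0, 2, 0, 1,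 1, 0, 0, 0, 0, 1, 1, 2] 4) (.cons (.node 3 (.cons (.leaf [1, 1, 1, 1, 0, 0, 0, 0, 0, 0, 1, 1, 0, 0, 0, 0, 1, 1] 0) (.cons (.leaf [1, 0, 1, 0, 0, 0, 0, 0, 2, 0, 0, 0, 0, 0, 0, 0, 0, 0, 1, 1] 4) (.cons (.leaf [1, 0, 0, 1, 2, 0, 0, 0, 0, 0, 1, 1] 4) (.cons (.leaf [10, 10, 0, 0, 0, 0, 0, 1] 27) (.cons (.leaf [2, 1, 0, 1, 2, 0, 0, 0, 2, 0, 2, 0, 0, 0, 0, 1, 0, 1] 8) (.cons (.leaf [1, 0, 1, 1, 0, 0, 0, 0, 0, 0, 0, 1, 0, 0, 0, 0, 1, 0, 1] 0) (.cons (.leaf [2, 0, 2, 2, 0, 0, 4, 0, 2, 0, 3, 1, 0, 0, 0, 0, 1, 3] 12) (.cons (.leaf [1, 1, 0, 1, 4, 0, 0, 0, 2, 0, 2, 1, 0, 0, 0, 1, 0, 0, 0, 1] 8) (.cons (.leaf [20, 30, 20, 10, 0, 1, 0, 1, 20, 0, 20, 0, 0, 0, 0, 0, 10, 30] 94) (.cons (.leaf [10, 20, 0, 0, 20, 0,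 0, 1, 20, 0, 10, 0, 0, 0, 0, 10, 0, 0, 0, 10] 67) (.cons (.leaf [20, 20, 20, 40, 40, 0, 0, 0, 0, 1, 30, 50, 0, 0, 0, 0, 30, 10] 27) (.cons (.leaf [1, 0, 0, 0, 2, 0, 2, 0, 0, 0, 0, 1, 0, 0, 1, 0, 0, 0, 0, 1] 4) (.cons (.leaf [20, 30, 20, 10, 0, 1, 0, 1, 0, 1, 0, 20, 0, 0, 0, 0, 30, 10] 1) (.cons (.leaf [10, 20, 0, 0, 20, 0, 0, 1, 0, 0, 0, 10, 0, 0, 10, 0, 0, 0, 0, 10] 27) .nil))))))))))))))) (.cons (.leaf [1, 0, 1, 0, 0, 0, 0, 2, 0, 0, 0, 0, 0, 0, 0, 0, 0, 1, 0, 1] 4) (.cons (.leaf [1, 1, 1, 0, 0, 0, 0, 2, 0, 1, 0, 0, 0, 0, 0, 1, 0, 1] 4) (.cons (.leaf [1, 1, 1, 0, 0, 0, 0, 0, 0, 0, 1, 0, 0, 0, 0, 0, 1, 1] 0) (.cons (.leaf [20, 20, 20, 0, 0, 0, 1, 20, 0, 30, 10, 0, 0, 10, 0, 10] 67) (.cons (.leaf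 [1, 0, 0, 2, 0, 0, 0, 2, 0, 1, 0, 0, 0, 0, 0, 1, 0, 0, 1] 4) (.cons (.leaf [10, 20, 20, 0, 1, 0, 0, 40, 0, 10, 0, 0, 0, 0, 0, 10, 0, 20, 0, 10] 67) (.cons (.leaf [1, 0, 2, 2, 0, 0, 0, 4, 0, 1, 0, 0, 0, 0, 0, 1, 0, 2, 0, 1] 8) (.cons (.node 3 (.cons (.leaf [10, 20, 30, 20, 0, 1, 0, 1, 0, 1, 10, 30, 0, 0, 0, 0, 0, 20] 1) (.cons (.leaf [1, 1, 1, 0, 0, 0, 0, 0, 0, 0, 0, 1, 0, 0, 0, 1, 0, 0, 0, 1] 4) (.cons (.leaf [1, 1, 2, 1, 0, 0, 0, 0, 0, 0, 1, 2, 0, 0, 0, 0, 0, 1, 0, 1] 4) (.cons (.leaf [10, 10, 20, 10, 0, 1, 0, 1, 0, 0, 0, 10, 0, 0, 0, 0, 0, 10, 10] 14) (.cons (.leaf [3, 1, 1, 1, 0, 0, 2, 0, 2, 0, 2, 0, 0, 0, 0, 2, 0, 2] 12) (.cons (.leaf [10, 10, 10, 10, 0, 0, 0, 1, 0, 1, 0, 20] 14) (.cons (.leaf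 [1, 1, 2, 2, 0, 0, 0, 0, 0, 0, 2, 2, 0, 0, 0, 0, 0, 2] 8) (.cons (.leaf [1, 3, 4, 2, 0, 0, 0, 0, 0, 0, 2, 4, 0, 0, 0, 2, 0, 2, 0, 2] 8) (.cons (.leaf [5, 5, 10, 0, 0, 1, 0, 0, 0, 0, 0, 0, 0, 0, 0, 0, 0, 10] 27) (.cons (.leaf [1, 1, 0, 0, 0, 0, 0, 0, 0, 0, 0, 0, 0, 0, 0, 2] 8) (.cons (.leaf [10, 10, 20, 20, 0, 0, 0, 0, 0, 1, 10, 30, 0, 0, 0, 0, 10, 10] 27) (.cons (.leaf [1, 1, 2, 0, 0, 0, 0, 0, 0, 0, 0, 2, 0, 0, 0, 0, 0, 0, 0, 2] 8) (.cons (.leaf [5, 15, 20, 10, 0, 1, 0, 1, 0, 1, 0, 20, 0, 0, 0, 0, 0, 10] 1) (.cons (.leaf [5, 5, 10, 10, 0, 0, 0, 1, 0, 0, 0, 10, 0, 0, 0, 0, 0, 0, 10] 27) .nil))))))))))))))) (.cons (.leaf [1, 0, 0, 2, 0, 0, 0, 0, 0, 0, 1, 0, 0, 0, 0, 0, 1, 0, 1] 0) (.cons (.leaf [10,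 20, 20, 0, 1, 0, 0, 20, 0, 0, 10, 0, 0, 0, 0, 0, 10, 20, 0, 10] 27) (.cons (.leaf [1, 0, 2, 2, 0, 0, 0, 2, 0, 0, 1, 0, 0, 0, 0, 0, 1, 2, 0, 1] 4) .nil))))))))))))))) (.cons (.leaf [2, 2, 4, 0, 0, 0, 2, 0, 1, 1, 0, 0, 1, 1, 0, 0, 0, 0, 2] 4) (.cons (.leaf [2, 0, 2, 0, 2, 0, 2, 0, 1, 1, 0, 0, 0, 0, 0, 0, 1, 0, 1] 4) (.cons (.leaf [10, 10, 0, 0, 0, 1] 27) (.cons (.node 3 (.cons (.leaf [1, 1, 1, 0, 0, 0, 0, 0, 0, 1, 0, 0, 0, 0, 0, 0, 1, 0, 0, 1] 0) (.cons (.leaf [1, 1, 1, 2, 0, 0, 0, 0, 0, 1, 0, 0, 0, 0, 1, 0, 0, 1] 4) (.cons (.leaf [1, 0, 1, 2, 0, 0, 0, 0, 0, 1, 1] 4) (.cons (.node 1 (.cons (.leaf [1, 1, 1, 0, 0, 0, 0, 0, 0, 0, 0, 0, 1, 0, 0, 1, 0, 0, 0, 0, 1] 0) (.cons (.leaf [2, 1, 0, 1, 2, 0, 0,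 0, 2, 0, 0, 0, 0, 0, 0, 0, 1, 1, 2] 8) (.cons (.leaf [10, 10, 0, 0, 0, 0, 0, 1] 27) (.cons (.leaf [1, 0, 0, 1, 0, 0, 0, 0, 2, 0, 0, 0, 0, 0, 0, 0, 0, 0, 1, 0, 1] 4) (.cons (.leaf [1, 0, 1, 0, 2, 0, 0, 0, 0, 0, 1, 0, 1] 4) (.cons (.leaf [1, 1, 1, 1, 0, 0, 0, 0, 0, 0, 0, 0, 0, 0, 0, 1, 0, 1, 1, 0, 1] 0) (.cons (.leaf [10, 20, 0, 0, 0, 0, 0, 1, 20, 0, 0, 0, 10, 0, 10, 0, 0, 0, 0, 0, 10] 27) (.cons (.leaf [10, 20, 20, 0, 40, 0, 0, 1, 0, 0, 10, 0, 20, 0, 0, 0, 0, 10, 10] 67) (.cons (.leaf [1, 1, 0, 1, 0, 0, 0, 0, 4, 0, 0, 0, 1, 0, 1, 0, 0, 0, 1, 0, 2] 4) (.cons (.leaf [1, 0, 2, 0, 4, 0, 2, 0, 0, 0, 1, 0, 2, 0, 0, 0, 0, 1, 1] 8) (.cons (.leaf [20, 30, 20, 10, 0, 1, 0, 1, 0, 1, 0, 0, 0, 0, 0, 30, 0, 10,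 0, 0, 20] 1) (.cons (.leaf [20, 30, 20, 10, 20, 0, 0, 1, 0, 1, 0, 0, 0, 0, 0, 10, 0, 30, 20] 94) (.cons (.leaf [20, 0, 20, 20, 0, 1, 40, 0, 0, 0, 0, 0, 0, 0, 0, 30, 0, 10, 10, 0, 30] 27) (.cons (.leaf [2, 0, 2, 2, 2, 0, 4, 0, 0, 0, 0, 0, 0, 0, 0, 1, 0, 3, 3, 0, 1] 12) .nil))))))))))))))) (.cons (.leaf [2, 0, 0, 2, 0, 2, 0, 2, 0, 1, 0, 1, 0, 0, 1, 0, 1] 4) (.cons (.leaf [10, 10, 0, 0, 0, 0, 0, 0, 1] 27) (.cons (.leaf [1, 0, 2, 2, 0, 0, 0, 2, 0, 2, 1, 0, 0, 0, 0, 0, 1, 0, 0, 1] 4) (.cons (.leaf [1, 0, 2, 4, 0, 0, 0, 2, 0, 2, 1, 0, 0, 0, 1, 0, 0, 1] 8) (.cons (.leaf [1, 0, 0, 0, 0, 0, 0, 2, 0, 0, 0, 1, 0, 0, 0, 0, 1, 0, 0, 1] 0) (.cons (.leaf [1, 0, 0, 2, 0, 0, 0, 2, 0, 0, 0, 1, 0, 0, 1, 0, 0, 1] 4)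 (.cons (.leaf [10, 20, 20, 20, 0, 0, 0, 0, 1, 20, 10, 0, 0, 0, 0, 0, 10, 0, 0, 10] 27) (.cons (.leaf [10, 20, 20, 40, 0, 0, 0, 0, 1, 20, 10, 0, 0, 0, 10, 0, 0, 10] 67) (.cons (.node 1 (.cons (.leaf [10, 10, 10, 10, 0, 1, 0, 1, 0, 0, 0, 0, 0, 0, 0, 0, 0, 0, 0, 0, 20] 14) (.cons (.leaf [3, 1, 1, 1, 2, 0, 2, 0, 0, 0, 0, 0, 0, 0, 0, 0, 2, 2, 2] 12) (.cons (.leaf [10, 10, 20, 10, 0, 0, 0, 1, 0, 1, 10, 0, 0, 0, 0, 0, 0, 10, 0, 0, 10] 14) (.cons (.leaf [1, 1, 2, 1, 0, 0, 0, 0, 0, 0, 0, 0, 1, 0, 0, 0, 0, 1, 1, 0, 2] 4) (.cons (.leaf [1, 1, 1, 0, 0, 0, 0, 0, 0, 0, 0, 0, 1, 0, 0, 0, 1, 0, 0, 0, 1] 4) (.cons (.leaf [10, 20, 30, 20, 0, 1, 0, 1, 0, 1, 0, 0, 0, 0, 0, 0, 0, 20, 10, 0, 30] 1) (.cons (.leaf [5, 5,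 10, 10, 0, 0, 0, 1, 0, 0, 10, 0, 0, 0, 0, 0, 0, 0, 0, 0, 10] 27) (.cons (.leaf [1, 1, 0, 0, 0, 0, 0, 0, 0, 0, 0, 0, 0, 0, 0, 0, 2] 8) (.cons (.leaf [1, 1, 2, 0, 0, 0, 0, 0, 0, 0, 0, 0, 2, 0, 0, 0, 0, 0, 0, 0, 2] 8) (.cons (.leaf [1, 1, 4, 2, 4, 0, 0, 0, 0, 0, 2, 0, 2, 0, 0, 0, 0, 2, 2, 0, 2] 8) (.cons (.leaf [5, 15, 20, 10, 0, 1, 0, 1, 0, 1, 0, 0, 0, 0, 0, 0, 0, 10, 0, 0, 20] 1) (.cons (.leaf [5, 5, 10, 0, 0, 0, 0, 0, 0, 1, 0, 0, 0, 0, 0, 0, 0, 10] 27) (.cons (.leaf [5, 15, 20, 20, 0, 1, 0, 1, 0, 0, 0, 0, 0, 0, 0, 0, 0, 10, 10, 0, 30] 14) (.cons (.leaf [1, 1, 2, 2, 0, 0, 0, 0, 0, 0, 0, 0, 0, 0, 0, 0, 0, 2, 2, 0, 2] 8) .nil))))))))))))))) (.cons (.leaf [10, 20, 0, 20, 0, 0, 0, 0, 1, 0, 0, 10, 0, 0,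 10, 0, 0, 10] 27) .nil))))))))))))))) (.cons (.leaf [2, 0, 2, 0, 2, 0, 2, 0, 0, 1, 0, 1, 1, 0, 1] 4) (.cons (.leaf [1, 0, 0, 0, 2, 0, 0, 0, 1, 0, 0, 0, 0, 0, 0, 1, 1] 0) (.cons (.leaf [1, 0, 2, 0, 2, 0, 0, 0, 1, 0, 0, 0, 0, 1, 0, 0, 0, 0, 1] 4) (.cons (.node 1 (.cons (.leaf [20, 10, 20, 0, 1, 0, 1, 0, 0, 10, 0, 0, 0, 0, 10, 0, 0, 0, 0, 10] 14) (.cons (.leaf [2, 1, 2, 2, 0, 0, 0, 2, 0, 1, 0, 0, 0, 0, 0, 1, 2, 2, 1] 4) (.cons (.node 3 (.cons (.leaf [20, 10, 20, 30, 0, 1, 0, 1, 0, 1, 20, 0, 0, 0, 0, 0, 10, 30] 1) (.cons (.leaf [20, 20, 10, 0, 20, 0, 0, 1, 20, 0, 10, 0, 0, 0, 0, 10, 0, 0, 0, 30] 67) (.cons (.leaf [1, 0, 1, 1, 0, 0, 0, 0, 0, 0, 1, 0, 0, 0, 0, 0, 0, 1, 0, 1] 4) (.cons (.leaf [10, 10, 0,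 0, 0, 0, 0, 1] 27) (.cons (.leaf [2, 1, 0, 1, 2, 0, 0, 0, 2, 0, 2, 0, 0, 0, 0, 1, 0, 1] 8) (.cons (.leaf [20, 10, 10, 10, 0, 0, 0, 1, 0, 1, 0, 10, 0, 0, 0, 0, 10, 0, 0, 10] 14) (.cons (.leaf [1, 0, 1, 2, 0, 0, 0, 0, 0, 0, 2, 0, 0, 0, 0, 0, 0, 2] 8) (.cons (.leaf [1, 1, 0, 1, 4, 0, 0, 0, 2, 0, 2, 1, 0, 0, 0, 1, 0, 0, 0, 1] 8) (.cons (.leaf [5, 10, 5, 10, 0, 0, 0, 1, 0, 0, 10, 0, 0, 0, 0, 0, 0, 10] 27) (.cons (.leaf [10, 20, 0, 0, 20, 0, 0, 1, 20, 0, 10, 0, 0, 0, 0, 10, 0, 0, 0, 10] 67) (.cons (.leaf [10, 0, 10, 20, 0, 0, 0, 0, 0, 1, 10, 10, 0, 0, 0, 0, 10, 10] 27) (.cons (.leaf [1, 0, 1, 0, 0, 0, 0, 0, 0, 0, 0, 0, 0, 0, 0, 0, 0, 0, 0, 2] 8) (.cons (.leaf [10, 10, 10, 10, 0, 1, 0, 1, 0, 1, 0, 0, 0,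 0, 0, 0, 10, 10] 1) (.cons (.leaf [5, 10, 5, 0, 0, 0, 0, 1, 0, 0, 0, 0, 0, 0, 0, 0, 0, 0, 0, 10] 27) .nil))))))))))))))) (.cons (.leaf [1, 1, 1, 0, 0, 0, 0, 0, 0, 0, 0, 1, 0, 0, 0, 0, 1, 1] 4) (.cons (.leaf [20, 10, 20, 20, 0, 0, 1, 20, 0, 20, 0, 10, 0, 0, 0, 10, 0, 10] 67) (.cons (.node 3 (.cons (.leaf [10, 10, 10, 10, 0, 1, 0, 0, 0, 1, 0, 0, 0, 0, 0, 0, 0, 20] 14) (.cons (.leaf [1, 1, 1, 1, 0, 0, 0, 0, 0, 0, 0, 0, 0, 0, 0, 1, 0, 1, 1, 1] 4) (.cons (.leaf [1, 0, 1, 1, 0, 0, 0, 0, 0, 0, 1, 0, 0, 0, 0, 0, 0, 1, 0, 1] 4) (.cons (.leaf [10, 20, 20, 30, 0, 1, 0, 1, 0, 1, 0, 0, 0, 0, 0, 10, 0, 30, 20] 1) (.cons (.leaf [1, 1, 1, 2, 0, 0, 0, 0, 0, 0, 1, 0, 0, 0, 0, 1, 0, 2, 1] 4) (.cons (.leaf [20, 0, 10,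 20, 0, 0, 0, 1, 0, 1, 0, 10, 0, 0, 0, 0, 10, 0, 10] 14) (.cons (.leaf [1, 0, 1, 2, 0, 0, 0, 0, 0, 0, 2, 0, 0, 0, 0, 0, 0, 2] 8) (.cons (.leaf [1, 2, 3, 4, 0, 0, 0, 0, 0, 0, 2, 0, 0, 0, 0, 2, 0, 4, 2, 2] 8) (.cons (.leaf [10, 20, 10, 20, 0, 1, 0, 0, 0, 0, 0, 0, 0, 0, 0, 10, 0, 30, 10, 0, 10] 27) (.cons (.leaf [1, 2, 1, 2, 0, 0, 0, 0, 0, 0, 0, 0, 0, 0, 0, 2, 0, 2, 2] 8) (.cons (.leaf [5, 10, 5, 10, 0, 0, 0, 0, 0, 1, 0, 10, 0, 0, 0, 0, 0, 10] 27) (.cons (.leaf [1, 0, 1, 0, 0, 0, 0, 0, 0, 0, 0, 0, 0, 0, 0, 0, 0, 0, 0, 2] 8) (.cons (.leaf [5, 10, 15, 20, 0, 1, 0, 1, 0, 1, 0, 0, 0, 0, 0, 0, 0, 20, 10] 1) (.cons (.leaf [5, 0, 5, 10, 0, 0, 0, 1, 0, 0, 0, 0, 0, 0, 0, 0, 0, 0, 10] 27) .nil))))))))))))))) (.cons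 (.leaf [5, 5, 10, 0, 0, 0, 1, 0, 0, 10] 27) (.cons (.leaf [1, 0, 0, 2, 0, 0, 0, 2, 0, 1, 0, 0, 0, 0, 0, 1, 0, 0, 1] 4) (.cons (.leaf [1, 1, 0, 0, 0, 0, 0, 0, 0, 0, 0, 2] 8) (.cons (.leaf [1, 1, 2, 2, 0, 0, 0, 2, 0, 1, 0, 1, 0, 0, 0, 1, 1, 2] 8) (.cons (.node 3 (.cons (.leaf [10, 5, 15, 20, 0, 1, 0, 1, 0, 1, 10, 0, 0, 0, 0, 0, 0, 20] 1) (.cons (.leaf [2, 1, 1, 0, 0, 0, 0, 0, 0, 0, 0, 0, 0, 0, 0, 2, 0, 0, 0, 2] 8) (.cons (.leaf [1, 0, 1, 1, 0, 0, 0, 0, 0, 0, 1, 0, 0, 0, 0, 0, 0, 1, 0, 1] 4) (.cons (.leaf [10, 10, 10, 10, 0, 1, 0, 1, 0, 1, 0, 0, 0, 0, 0, 10, 0, 10] 1) (.cons (.leaf [2, 1, 1, 2, 0, 0, 0, 0, 0, 0, 2, 0, 0, 0, 0, 2, 0, 2] 8) (.cons (.leaf [10, 5, 5, 10, 0, 0, 0, 1, 0, 1, 0, 10] 14) (.cons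 (.leaf [1, 0, 1, 2, 0, 0, 0, 0, 0, 0, 2, 0, 0, 0, 0, 0, 0, 2] 8) (.cons (.leaf [1, 1, 0, 2, 4, 0, 0, 0, 0, 0, 2, 2, 0, 0, 0, 2] 8) (.cons (.leaf [10, 10, 10, 20, 0, 1, 0, 1, 0, 0, 10, 0, 0, 0, 0, 10, 0, 20, 0, 0, 10] 14) (.cons (.leaf [1, 1, 0, 0, 0, 0, 0, 0, 0, 0, 0, 0, 0, 0, 0, 2] 8) (.cons (.leaf [5, 5, 10, 20, 0, 0, 0, 1, 0, 1, 10, 10, 0, 0, 0, 0, 0, 10] 14) (.cons (.leaf [1, 0, 1, 0, 0, 0, 0, 0, 0, 0, 0, 0, 0, 0, 0, 0, 0, 0, 0, 2] 8) (.cons (.leaf [5, 5, 10, 10, 0, 1, 0, 1, 0, 1, 0, 0, 0, 0, 0, 0, 0, 10] 1) (.cons (.leaf [5, 0, 5, 10, 0, 0, 0, 1, 0, 0, 0, 0, 0, 0, 0, 0, 0, 0, 10] 27) .nil))))))))))))))) (.cons (.leaf [1, 1, 0, 0, 0, 0, 0, 0, 0, 0, 0, 0, 0, 0, 0, 0, 2, 0, 2] 0) (.cons (.leaf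 [10, 10, 20, 0, 1, 0, 0, 0, 0, 0, 0, 0, 0, 0, 10, 0, 10, 10, 0, 10] 27) (.cons (.leaf [1, 1, 2, 0, 0, 0, 0, 0, 0, 0, 0, 0, 0, 0, 0, 0, 2, 2] 8) .nil))))))))))))))) (.cons (.leaf [10, 20, 20, 0, 0, 1, 0, 0, 10, 0, 0, 0, 0, 10, 0, 0, 0, 0, 10] 27) (.cons (.leaf [1, 0, 0, 0, 2, 0, 2, 0, 0, 1, 0, 0, 0, 0, 1, 0, 1] 4) (.cons (.leaf [1, 0, 2, 0, 2, 0, 2, 0, 0, 1, 0, 0, 1, 0, 0, 0, 0, 0, 1] 8) (.cons (.leaf [10, 20, 0, 0, 0, 1, 20, 0, 0, 10, 0, 0, 0, 0, 10, 0, 10] 27) (.cons (.leaf [10, 20, 20, 0, 0, 1, 20, 0, 0, 10, 0, 0, 10, 0, 0, 0, 0, 0, 10] 67) .nil))))))))))))))) (.cons (.leaf [2, 2, 0, 2, 0, 2, 0, 0, 0, 1, 1, 0, 0, 0, 0, 0, 1, 0, 1] 4) (.cons (.node 1 (.cons (.node 2 (.cons (.leaf [10, 10, 0, 0,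 1] 27) (.cons (.leaf [2, 0, 2, 4, 0, 2, 0, 0, 0, 1, 0, 1, 0, 2, 0, 0, 0, 0, 0, 1, 1] 4) (.cons (.leaf [1, 1, 1, 0, 0, 2, 0, 0, 0, 1, 0, 0, 0, 1, 0, 0, 0, 0, 0, 1] 4) (.cons (.leaf [1, 1, 1, 0, 0, 0, 0, 0, 0, 0, 0, 1, 0, 1, 0, 0, 0, 0, 0, 0, 1] 0) (.cons (.node 3 (.cons (.leaf [1, 1, 1, 1, 0, 0, 0, 0, 0, 0, 1, 0, 1, 0, 0, 0, 0, 0, 0, 0, 1, 1] 0) (.cons (.leaf [2, 0, 0, 2, 4, 0, 2, 0, 0, 0, 1, 0, 1, 0, 2, 0, 0, 0, 1, 1] 4) (.cons (.leaf [2, 1, 0, 1, 2, 0, 2, 0, 0, 0, 2, 0, 0, 0, 0, 0, 0, 0, 0, 1, 0, 1] 8) (.cons (.leaf [1, 0, 1, 1, 0, 0, 0, 0, 0, 0, 0, 0, 1, 0, 1, 0, 0, 0, 0, 0, 1] 0) (.cons (.leaf [1, 0, 0, 1, 2, 0, 0, 0, 0, 0, 1, 0, 1] 4) (.cons (.leaf [10, 10, 0, 0, 0, 0, 0, 0, 0, 1] 27) (.cons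 (.leaf [2, 2, 2, 4, 4, 0, 2, 0, 0, 0, 5, 0, 3, 0, 0, 0, 0, 0, 0, 0, 1, 3] 12) (.cons (.leaf [1, 0, 0, 2, 4, 0, 2, 0, 0, 0, 2, 0, 1, 0, 1, 0, 0, 0, 0, 1] 8) (.cons (.leaf [20, 20, 20, 40, 40, 0, 0, 1, 0, 0, 30, 0, 50, 0, 0, 0, 0, 0, 0, 0, 30, 10] 27) (.cons (.leaf [1, 0, 2, 0, 0, 0, 2, 0, 2, 0, 0, 0, 1, 0, 1, 2, 0, 0, 0, 0, 1] 4) (.cons (.leaf [20, 30, 20, 10, 0, 1, 20, 0, 0, 1, 20, 0, 0, 0, 0, 0, 0, 0, 0, 0, 10, 30] 94) (.cons (.leaf [10, 20, 0, 0, 20, 0, 20, 0, 0, 1, 10, 0, 0, 0, 0, 10, 0, 0, 0, 10] 67) (.cons (.leaf [20, 30, 20, 10, 0, 1, 0, 1, 0, 1, 0, 0, 20, 0, 0, 0, 0, 0, 0, 0, 30, 10] 1) (.cons (.leaf [10, 20, 0, 0, 20, 0, 0, 0, 0, 1, 0, 0, 10, 0, 0, 10, 0, 0, 10] 27) .nil))))))))))))))) (.cons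 (.leaf [1, 0, 1, 0, 0, 2, 0, 0, 0, 0, 0, 0, 0, 1, 0, 1] 4) (.cons (.leaf [20, 20, 20, 0, 0, 20, 0, 0, 1, 30, 0, 10, 0, 0, 0, 0, 0, 10, 0, 10] 67) (.cons (.leaf [10, 0, 20, 40, 0, 20, 0, 0, 1, 20, 0, 10, 0, 10, 0, 0, 0, 0, 0, 10] 27) (.cons (.node 3 (.cons (.leaf [10, 20, 30, 20, 0, 1, 0, 1, 0, 1, 10, 0, 30, 0, 0, 0, 0, 0, 0, 0, 0, 20] 1) (.cons (.leaf [1, 1, 1, 0, 0, 0, 0, 0, 0, 0, 0, 0, 1, 0, 0, 1, 0, 0, 0, 1] 4) (.cons (.leaf [3, 1, 1, 1, 0, 0, 2, 0, 2, 0, 2, 0, 0, 0, 0, 0, 0, 0, 0, 2, 0, 2] 12) (.cons (.leaf [10, 10, 10, 10, 0, 0, 0, 1, 0, 1, 0, 0, 20] 14) (.cons (.leaf [1, 1, 2, 1, 0, 0, 0, 0, 0, 0, 1, 0, 2, 0, 0, 1, 0, 0, 0, 0, 0, 1] 4) (.cons (.leaf [10, 10, 20, 10, 0, 1, 0, 0, 0, 1, 0, 0,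 10, 0, 10, 0, 0, 0, 0, 0, 0, 10] 14) (.cons (.leaf [1, 1, 2, 2, 0, 0, 0, 0, 0, 0, 2, 0, 2, 0, 0, 0, 0, 0, 0, 0, 0, 2] 8) (.cons (.leaf [1, 1, 4, 2, 0, 0, 4, 0, 0, 0, 2, 0, 2, 0, 2, 2, 0, 0, 0, 0, 0, 2] 8) (.cons (.leaf [5, 15, 20, 20, 0, 0, 0, 1, 0, 1, 10, 0, 30, 0, 0, 0, 0, 0, 0, 0, 0, 10] 14) (.cons (.leaf [1, 1, 2, 0, 0, 0, 0, 0, 0, 0, 0, 0, 2, 0, 0, 2] 8) (.cons (.leaf [5, 5, 10, 0, 0, 1, 0, 0, 0, 0, 0, 0, 0, 0, 0, 0, 0, 0, 0, 0, 0, 10] 27) (.cons (.leaf [1, 1, 0, 0, 0, 0, 0, 0, 0, 0, 0, 0, 0, 0, 0, 0, 0, 0, 0, 2] 8) (.cons (.leaf [5, 15, 20, 10, 0, 1, 0, 1, 0, 1, 0, 0, 20, 0, 0, 0, 0, 0, 0, 0, 0, 10] 1) (.cons (.leaf [5, 5, 10, 10, 0, 0, 0, 0, 0, 1, 0, 0, 10, 0, 10] 27) .nil))))))))))))))) (.cons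 (.leaf [1, 0, 0, 2, 0, 0, 0, 0, 0, 0, 0, 1, 0, 0, 1, 0, 0, 0, 0, 0, 1] 0) (.cons (.leaf [10, 20, 20, 0, 1, 40, 0, 0, 0, 10, 0, 0, 0, 20, 0, 10, 0, 0, 0, 10] 67) (.cons (.leaf [1, 0, 2, 2, 0, 4, 0, 0, 0, 1, 0, 0, 0, 2, 0, 1, 0, 0, 0, 1] 8) (.cons (.leaf [10, 20, 20, 0, 1, 20, 0, 0, 0, 0, 0, 10, 0, 20, 0, 10, 0, 0, 0, 0, 10] 27) (.cons (.leaf [1, 0, 2, 2, 0, 2, 0, 0, 0, 0, 0, 1, 0, 2, 0, 1, 0, 0, 0, 0, 1] 4) .nil))))))))))))))) (.cons (.leaf [2, 2, 4, 0, 2, 0, 0, 0, 1, 0, 1, 0, 0, 0, 2, 0, 1, 1] 4) (.cons (.node 3 (.cons (.leaf [1, 1, 1, 0, 0, 0, 0, 0, 0, 1, 0, 0, 0, 0, 0, 1, 0, 0, 0, 0, 1] 0) (.cons (.leaf [1, 1, 1, 2, 0, 0, 0, 0, 0, 1, 0, 0, 0, 1, 0, 0, 0, 0, 1] 4) (.cons (.leaf [2, 0, 2, 2, 0, 4,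 0, 0, 0, 2, 0, 0, 0, 1, 0, 1, 0, 0, 1, 0, 1] 4) (.cons (.leaf [10, 10, 0, 0, 0, 0, 1] 27) (.cons (.leaf [1, 0, 1, 2, 0, 0, 0, 0, 0, 1, 0, 1] 4) (.cons (.node 2 (.cons (.leaf [1, 0, 1, 1, 0, 0, 0, 0, 0, 0, 1, 0, 0, 0, 0, 0, 1, 0, 0, 1] 0) (.cons (.leaf [2, 1, 0, 1, 2, 0, 2, 0, 0, 0, 0, 0, 0, 0, 2, 0, 0, 0, 0, 0, 1, 1] 8) (.cons (.leaf [1, 0, 1, 0, 2, 0, 0, 0, 0, 0, 1, 1] 4) (.cons (.leaf [1, 1, 1, 1, 0, 0, 0, 0, 0, 0, 0, 0, 0, 0, 1, 0, 1, 0, 0, 1, 0, 1] 0) (.cons (.leaf [10, 10, 0, 0, 0, 0, 0, 0, 0, 1] 27) (.cons (.leaf [1, 0, 0, 1, 0, 0, 2, 0, 0, 0, 0, 0, 0, 0, 1, 0, 1] 4) (.cons (.leaf [10, 0, 20, 20, 20, 0, 0, 0, 0, 1, 30, 0, 0, 0, 0, 0, 10, 0, 0, 10] 27) (.cons (.leaf [10, 0, 20, 20, 40, 0, 0,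 0, 0, 1, 30, 0, 0, 0, 10, 0, 0, 0, 0, 0, 0, 10] 67) (.cons (.leaf [20, 30, 20, 10, 0, 1, 0, 1, 0, 1, 0, 0, 0, 0, 0, 0, 20, 0, 0, 30, 0, 10] 1) (.cons (.leaf [20, 30, 20, 10, 20, 0, 0, 1, 0, 1, 0, 0, 0, 0, 20, 0, 0, 0, 0, 10, 0, 30] 94) (.cons (.leaf [1, 0, 0, 2, 0, 0, 4, 0, 0, 0, 1, 0, 0, 0, 1, 0, 2, 0, 1] 4) (.cons (.leaf [1, 0, 0, 2, 2, 0, 4, 0, 0, 0, 1, 0, 0, 0, 2, 0, 1, 0, 0, 0, 1] 8) (.cons (.leaf [20, 20, 20, 40, 0, 1, 40, 0, 0, 0, 0, 0, 0, 0, 30, 0, 50, 0, 0, 30, 0, 10] 27) (.cons (.leaf [2, 2, 2, 4, 2, 0, 4, 0, 0, 0, 0, 0, 0, 0, 5, 0, 3, 0, 0, 1, 0, 3] 12) .nil))))))))))))))) (.cons (.leaf [1, 2, 2, 2, 0, 0, 0, 2, 0, 3, 0, 0, 0, 0, 0, 1, 0, 0, 1, 0, 2] 4) (.cons (.leaf [1, 2, 2, 4, 0, 0,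 0, 2, 0, 3, 0, 0, 0, 1, 0, 0, 0, 0, 2, 0, 1] 8) (.cons (.leaf [10, 20, 20, 20, 0, 0, 1, 0, 0, 20, 0, 10, 0, 0, 0, 10, 0, 0, 0, 0, 10] 27) (.cons (.leaf [10, 20, 20, 40, 0, 0, 1, 0, 0, 20, 0, 10, 0, 10, 0, 0, 0, 0, 10] 67) (.cons (.leaf [1, 0, 0, 0, 0, 2, 0, 0, 0, 0, 1, 0, 0, 0, 0, 1, 0, 0, 0, 0, 1] 0) (.cons (.leaf [10, 0, 20, 20, 0, 40, 0, 0, 1, 10, 0, 0, 0, 20, 0, 10, 0, 0, 10] 27) (.cons (.node 2 (.cons (.leaf [10, 10, 10, 10, 0, 1, 0, 0, 0, 1, 0, 0, 0, 0, 0, 0, 20] 14) (.cons (.leaf [3, 1, 1, 1, 2, 0, 0, 0, 2, 0, 0, 0, 0, 0, 2, 0, 0, 0, 0, 0, 2, 2] 12) (.cons (.leaf [1, 1, 1, 0, 0, 0, 0, 0, 0, 0, 0, 1, 0, 0, 0, 0, 1, 0, 0, 0, 1] 4) (.cons (.leaf [10, 20, 30, 20, 0, 1, 0, 1, 0, 1, 0, 0, 0, 0,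 10, 0, 30, 0, 0, 0, 0, 20] 1) (.cons (.leaf [10, 10, 20, 10, 0, 0, 0, 1, 0, 1, 10, 0, 0, 0, 0, 0, 10, 0, 0, 0, 0, 10] 14) (.cons (.leaf [1, 1, 2, 1, 0, 0, 0, 0, 0, 0, 0, 1, 0, 0, 1, 0, 2, 0, 0, 0, 0, 1] 4) (.cons (.leaf [5, 5, 10, 10, 0, 0, 0, 0, 0, 1, 10, 0, 0, 0, 0, 0, 10] 27) (.cons (.leaf [1, 1, 0, 0, 0, 0, 0, 0, 0, 0, 0, 0, 0, 0, 0, 0, 0, 0, 0, 0, 2] 8) (.cons (.leaf [5, 15, 20, 10, 0, 1, 0, 1, 0, 1, 0, 0, 0, 0, 0, 0, 20, 0, 0, 0, 0, 10] 1) (.cons (.leaf [5, 5, 10, 0, 0, 0, 0, 1, 0, 0, 0, 0, 0, 0, 0, 0, 0, 0, 0, 0, 0, 10] 27) (.cons (.leaf [1, 1, 2, 0, 0, 0, 0, 0, 0, 0, 0, 2, 0, 0, 0, 0, 2] 8) (.cons (.leaf [1, 1, 4, 2, 4, 0, 0, 0, 0, 0, 2, 2, 0, 0, 2, 0, 2, 0, 0, 0, 0, 2] 8) (.cons (.leaf [5,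 15, 20, 20, 0, 1, 0, 0, 0, 1, 0, 0, 0, 0, 10, 0, 30, 0, 0, 0, 0, 10] 14) (.cons (.leaf [1, 1, 2, 2, 0, 0, 0, 0, 0, 0, 0, 0, 0, 0, 2, 0, 2, 0, 0, 0, 0, 2] 8) .nil))))))))))))))) (.cons (.leaf [20, 20, 20, 20, 0, 0, 0, 0, 1, 0, 0, 0, 0, 30, 0, 10, 0, 10, 10] 67) .nil))))))))))))))) (.cons (.leaf [2, 0, 2, 0, 2, 0, 2, 0, 0, 0, 1, 1, 0, 0, 0, 0, 1, 0, 1] 4) (.cons (.leaf [2, 0, 2, 0, 2, 0, 2, 0, 1, 0, 1, 0, 1, 0, 1] 4) (.cons (.leaf [10, 10, 0, 0, 0, 0, 0, 1] 27) (.cons (.leaf [1, 0, 0, 0, 0, 0, 2, 0, 1, 0, 0, 0, 1, 0, 0, 0, 0, 0, 0, 1] 0) (.cons (.leaf [1, 0, 2, 0, 0, 0, 2, 0, 1, 0, 0, 0, 0, 0, 1, 0, 0, 1] 4) (.cons (.leaf [1, 0, 0, 0, 2, 0, 2, 0, 0, 0, 1, 0, 1, 0, 0, 0, 0, 0, 1] 4) (.cons (.leaf [1,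 0, 2, 0, 2, 0, 2, 0, 0, 0, 1, 0, 0, 0, 1, 0, 1] 8) (.cons (.node 2 (.cons (.leaf [20, 10, 20, 0, 1, 0, 0, 0, 1, 10, 0, 0, 0, 0, 0, 10, 0, 0, 10] 14) (.cons (.leaf [2, 0, 2, 4, 0, 2, 0, 0, 0, 1, 0, 1, 0, 2, 0, 0, 0, 0, 0, 1, 1] 4) (.cons (.leaf [20, 10, 20, 20, 0, 20, 0, 0, 1, 20, 10, 0, 0, 10, 0, 0, 0, 0, 0, 10] 67) (.cons (.node 3 (.cons (.leaf [10, 10, 10, 10, 0, 1, 0, 1, 0, 0, 0, 0, 0, 0, 0, 0, 0, 0, 0, 0, 0, 20] 14) (.cons (.leaf [3, 1, 1, 1, 2, 0, 2, 0, 0, 0, 0, 0, 0, 0, 2, 2, 0, 0, 0, 2] 12) (.cons (.leaf [1, 1, 1, 2, 0, 0, 0, 0, 0, 0, 1, 0, 0, 0, 1, 0, 0, 0, 0, 1, 0, 2] 4) (.cons (.leaf [20, 0, 10, 20, 0, 0, 0, 1, 0, 1, 0, 0, 10, 0, 10, 0, 0, 0, 0, 0, 10] 14) (.cons (.leaf [1, 0, 1, 1, 0,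 0, 0, 0, 0, 0, 1, 0, 0, 0, 0, 1, 0, 0, 0, 0, 0, 1] 4) (.cons (.leaf [10, 20, 20, 30, 0, 1, 0, 1, 0, 1, 0, 0, 0, 0, 20, 0, 0, 0, 0, 10, 0, 30] 1) (.cons (.leaf [1, 0, 1, 2, 0, 0, 0, 0, 0, 0, 2, 0, 0, 0, 0, 0, 0, 0, 0, 0, 0, 2] 8) (.cons (.leaf [1, 0, 0, 2, 4, 0, 2, 0, 0, 0, 2, 0, 1, 0, 1, 0, 0, 0, 0, 1] 8) (.cons (.leaf [5, 10, 5, 10, 0, 0, 0, 1, 0, 0, 0, 0, 10, 0, 0, 0, 0, 0, 0, 0, 0, 10] 27) (.cons (.leaf [1, 0, 1, 0, 0, 0, 0, 0, 0, 0, 0, 0, 0, 0, 0, 2] 8) (.cons (.leaf [10, 20, 10, 20, 0, 1, 0, 0, 0, 0, 0, 0, 0, 0, 10, 0, 10, 0, 0, 10, 0, 30] 27) (.cons (.leaf [1, 2, 1, 2, 0, 0, 0, 0, 0, 0, 0, 0, 0, 0, 2, 0, 0, 0, 0, 2, 0, 2] 8) (.cons (.leaf [5, 10, 15, 20, 0, 1, 0, 1, 0, 1, 0, 0, 0, 0, 10, 0,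 0, 0, 0, 0, 0, 20] 1) (.cons (.leaf [5, 0, 5, 10, 0, 0, 0, 0, 0, 1, 0, 0, 0, 0, 10] 27) .nil))))))))))))))) (.cons (.node 3 (.cons (.leaf [20, 10, 20, 30, 0, 1, 0, 1, 0, 1, 20, 0, 0, 0, 0, 0, 0, 0, 0, 0, 10, 30] 1) (.cons (.leaf [20, 20, 10, 0, 20, 0, 20, 0, 0, 1, 10, 0, 0, 0, 0, 30, 0, 0, 0, 10] 67) (.cons (.leaf [2, 1, 0, 1, 2, 0, 2, 0, 0, 0, 2, 0, 0, 0, 0, 0, 0, 0, 0, 1, 0, 1] 8) (.cons (.leaf [20, 10, 10, 10, 0, 0, 0, 1, 0, 1, 0, 0, 10, 0, 0, 10, 0, 0, 0, 0, 10] 14) (.cons (.leaf [1, 0, 1, 1, 0, 0, 0, 0, 0, 0, 1, 0, 0, 0, 0, 1, 0, 0, 0, 0, 0, 1] 4) (.cons (.leaf [10, 10, 0, 0, 0, 0, 0, 0, 0, 1] 27) (.cons (.leaf [1, 0, 1, 2, 0, 0, 0, 0, 0, 0, 2, 0, 0, 0, 0, 0, 0, 0, 0, 0, 0, 2] 8) (.cons (.leaf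 [1, 1, 0, 1, 4, 0, 2, 0, 0, 0, 2, 0, 1, 0, 0, 1, 0, 0, 0, 1] 8) (.cons (.leaf [10, 0, 10, 20, 0, 0, 0, 1, 0, 0, 10, 0, 10, 0, 0, 0, 0, 0, 0, 0, 10, 10] 27) (.cons (.leaf [1, 0, 1, 0, 0, 0, 0, 0, 0, 0, 0, 0, 0, 0, 0, 2] 8) (.cons (.leaf [5, 10, 5, 10, 0, 0, 0, 0, 0, 1, 10, 0, 0, 0, 0, 0, 0, 0, 0, 0, 0, 10] 27) (.cons (.leaf [10, 20, 0, 0, 20, 0, 20, 0, 0, 1, 10, 0, 0, 0, 0, 10, 0, 0, 0, 10] 67) (.cons (.leaf [10, 10, 10, 10, 0, 1, 0, 1, 0, 1, 0, 0, 0, 0, 0, 0, 0, 0, 0, 0, 10, 10] 1) (.cons (.leaf [5, 10, 5, 0, 0, 0, 0, 0, 0, 1, 0, 0, 0, 0, 0, 10] 27) .nil))))))))))))))) (.cons (.leaf [1, 0, 1, 0, 0, 2, 0, 0, 0, 0, 0, 0, 0, 1, 0, 1] 4) (.cons (.leaf [5, 5, 10, 0, 0, 0, 0, 0, 1, 10] 27) (.cons (.leaf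 [1, 0, 0, 2, 0, 2, 0, 0, 0, 1, 0, 0, 0, 0, 1, 0, 0, 0, 0, 1] 4) (.cons (.node 3 (.cons (.leaf [10, 5, 15, 20, 0, 1, 0, 1, 0, 1, 10, 0, 0, 0, 0, 0, 0, 0, 0, 0, 0, 20] 1) (.cons (.leaf [2, 1, 1, 0, 0, 0, 0, 0, 0, 0, 0, 0, 0, 0, 0, 2, 0, 0, 0, 2] 8) (.cons (.leaf [2, 1, 1, 2, 0, 0, 0, 0, 0, 0, 2, 0, 0, 0, 0, 0, 0, 0, 0, 2, 0, 2] 8) (.cons (.leaf [10, 5, 5, 10, 0, 0, 0, 1, 0, 1, 0, 0, 10] 14) (.cons (.leaf [1, 0, 1, 1, 0, 0, 0, 0, 0, 0, 1, 0, 0, 0, 0, 1, 0, 0, 0, 0, 0, 1] 4) (.cons (.leaf [10, 10, 10, 10, 0, 1, 0, 1, 0, 1, 0, 0, 0, 0, 0, 0, 0, 0, 0, 10, 0, 10] 1) (.cons (.leaf [1, 0, 1, 2, 0, 0, 0, 0, 0, 0, 2, 0, 0, 0, 0, 0, 0, 0, 0, 0, 0, 2] 8) (.cons (.leaf [1, 0, 0, 0, 2, 0, 2, 0, 2, 0, 1, 0, 0, 0,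 0, 1, 0, 0, 0, 1] 8) (.cons (.leaf [5, 5, 10, 20, 0, 0, 0, 1, 0, 1, 10, 0, 10, 0, 0, 0, 0, 0, 0, 0, 0, 10] 14) (.cons (.leaf [1, 0, 1, 0, 0, 0, 0, 0, 0, 0, 0, 0, 0, 0, 0, 2] 8) (.cons (.leaf [10, 10, 10, 20, 0, 1, 0, 0, 0, 1, 10, 0, 0, 0, 0, 0, 10, 0, 0, 10, 0, 20] 14) (.cons (.leaf [1, 1, 0, 0, 0, 0, 0, 0, 0, 0, 0, 0, 0, 0, 0, 0, 0, 0, 0, 2] 8) (.cons (.leaf [5, 5, 10, 10, 0, 1, 0, 1, 0, 1, 0, 0, 0, 0, 0, 0, 0, 0, 0, 0, 0, 10] 1) (.cons (.leaf [5, 0, 5, 10, 0, 0, 0, 0, 0, 1, 0, 0, 0, 0, 10] 27) .nil))))))))))))))) (.cons (.leaf [1, 1, 0, 0, 0, 0, 0, 0, 0, 0, 0, 0, 0, 0, 2, 0, 0, 0, 0, 0, 2] 0) (.cons (.leaf [1, 1, 0, 0, 0, 0, 0, 0, 0, 0, 2] 8) (.cons (.leaf [1, 0, 2, 2, 0, 4, 0, 0, 0, 1, 0, 0, 0,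 2, 0, 1, 0, 0, 0, 1] 8) (.cons (.leaf [10, 10, 20, 0, 1, 0, 0, 0, 0, 0, 0, 0, 0, 10, 0, 10, 0, 0, 10, 0, 10] 27) (.cons (.leaf [1, 1, 2, 0, 0, 0, 0, 0, 0, 0, 0, 0, 0, 2, 0, 0, 0, 0, 0, 0, 2] 8) .nil))))))))))))))) (.cons (.leaf [10, 20, 20, 0, 0, 0, 0, 1, 10, 0, 0, 0, 0, 0, 10, 0, 0, 10] 27) (.cons (.leaf [10, 20, 0, 0, 20, 0, 0, 1, 0, 0, 10, 0, 10, 0, 0, 0, 0, 0, 10] 27) (.cons (.leaf [10, 20, 20, 0, 20, 0, 0, 1, 0, 0, 10, 0, 0, 0, 10, 0, 10] 67) .nil))))))))))))))) (.cons (.leaf [2, 2, 0, 2, 0, 2, 0, 0, 1, 0, 1, 0, 1, 0, 1] 4) (.cons (.node 1 (.cons (.node 2 (.cons (.leaf [10, 10, 0, 0, 1] 27) (.cons (.leaf [2, 0, 1, 2, 0, 2, 0, 0, 0, 1, 0, 0, 0, 2, 1, 0, 0, 0, 0, 1] 4) (.cons (.leaf [2, 2, 0,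 0, 0, 4, 0, 2, 0, 1, 1, 0, 0, 1, 1, 0, 0, 0, 0, 2] 4) (.cons (.node 3 (.cons (.leaf [20, 20, 0, 10, 0, 1, 0, 1, 0, 0, 0, 0, 10, 0, 0, 0, 10, 0, 0, 0, 0, 10] 14) (.cons (.leaf [1, 2, 1, 1, 0, 0, 0, 0, 0, 0, 0, 0, 1, 0, 2, 1, 0, 0, 0, 1] 4) (.cons (.leaf [1, 1, 0, 1, 0, 0, 0, 0, 0, 0, 1, 0, 0, 0, 1, 0, 0, 0, 0, 1] 4) (.cons (.leaf [10, 30, 20, 20, 0, 1, 0, 1, 0, 1, 0, 0, 20, 0, 30, 10] 1) (.cons (.leaf [1, 1, 1, 1, 0, 0, 0, 0, 0, 0, 1, 0, 1, 0, 1, 1] 4) (.cons (.leaf [10, 10, 10, 10, 0, 1, 0, 0, 0, 1, 0, 0, 0, 0, 20] 14) (.cons (.leaf [1, 0, 0, 1, 0, 0, 0, 0, 0, 0, 2] 8) (.cons (.leaf [1, 4, 2, 3, 0, 0, 0, 0, 0, 0, 2, 0, 2, 0, 4, 2, 0, 0, 0, 2] 8) (.cons (.leaf [5, 10, 0, 5, 0, 0, 0, 1, 0, 0, 0, 0,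 10] 27) (.cons (.leaf [1, 2, 2, 1, 0, 0, 0, 0, 0, 0, 0, 0, 2, 0, 2, 2] 8) (.cons (.leaf [5, 10, 10, 5, 0, 1, 0, 0, 0, 0, 0, 0, 0, 0, 10, 0, 0, 0, 0, 0, 0, 10] 27) (.cons (.leaf [1, 2, 0, 1, 0, 0, 0, 0, 0, 0, 0, 0, 0, 0, 2, 0, 0, 0, 0, 2] 8) (.cons (.leaf [5, 20, 10, 15, 0, 1, 0, 1, 0, 1, 0, 0, 10, 0, 20] 1) (.cons (.leaf [5, 20, 20, 15, 0, 1, 0, 0, 0, 1, 0, 0, 10, 0, 30, 10] 14) .nil))))))))))))))) (.cons (.node 3 (.cons (.leaf [30, 20, 10, 20, 0, 1, 0, 1, 0, 1, 30, 0, 10, 0, 0, 0, 0, 0, 0, 0, 20] 1) (.cons (.leaf [10, 20, 10, 0, 20, 0, 20, 0, 0, 1, 10, 0, 10, 0, 0, 20] 27) (.cons (.leaf [5, 15, 5, 5, 10, 0, 10, 0, 0, 1, 15, 0, 5, 0, 0, 10] 7) (.cons (.leaf [1, 1, 1, 0, 0, 0, 0, 0, 0, 0, 0, 0, 1,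 0, 0, 1, 0, 0, 0, 0, 1] 0) (.cons (.leaf [2, 2, 2, 1, 2, 0, 2, 0, 0, 0, 3, 0, 2, 0, 0, 3, 0, 0, 0, 0, 1] 4) (.cons (.leaf [10, 10, 0, 0, 0, 0, 0, 0, 0, 1] 27) (.cons (.leaf [1, 0, 0, 1, 0, 0, 0, 0, 0, 0, 2] 8) (.cons (.leaf [5, 20, 10, 5, 20, 0, 20, 0, 0, 1, 20, 0, 10, 0, 0, 20] 27) (.cons (.leaf [20, 0, 20, 10, 0, 1, 0, 1, 40, 0, 10, 0, 20, 0, 0, 10, 0, 0, 0, 0, 30] 14) (.cons (.leaf [1, 0, 0, 0, 2, 0, 0, 0, 2, 0, 0, 0, 1, 0, 0, 1, 0, 0, 1] 4) (.cons (.leaf [5, 10, 0, 5, 0, 0, 0, 0, 0, 1, 10] 27) (.cons (.leaf [10, 20, 0, 0, 20, 0, 20, 0, 0, 1, 10, 0, 0, 0, 0, 10, 0, 0, 0, 10] 67) (.cons (.leaf [15, 20, 10, 5, 0, 1, 0, 1, 0, 1, 0, 0, 10, 0, 0, 0, 0, 0, 0, 0, 20] 1) (.cons (.leaf [10, 20, 0, 0, 20,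 0, 0, 0, 0, 1, 0, 0, 10, 0, 0, 10, 0, 0, 10] 27) .nil))))))))))))))) (.cons (.leaf [20, 20, 10, 0, 1, 20, 0, 20, 0, 0, 10, 0, 0, 30, 0, 0, 0, 0, 0, 10] 67) (.cons (.leaf [10, 20, 0, 0, 1, 20, 0, 0, 0, 10, 0, 0, 0, 0, 10, 0, 0, 0, 0, 10] 27) (.cons (.leaf [1, 0, 0, 2, 0, 2, 0, 0, 0, 1, 0, 0, 0, 0, 1, 0, 0, 0, 0, 1] 4) (.cons (.node 3 (.cons (.leaf [10, 10, 10, 10, 0, 1, 0, 1, 0, 1, 10, 0, 10] 1) (.cons (.leaf [1, 0, 1, 0, 0, 0, 2, 0, 0, 0, 0, 0, 0, 0, 1, 1] 4) (.cons (.leaf [2, 1, 0, 1, 0, 0, 0, 0, 0, 0, 2, 0, 0, 0, 0, 0, 0, 0, 0, 2] 8) (.cons (.leaf [10, 15, 20, 5, 0, 1, 0, 1, 0, 1, 0, 0, 20, 0, 0, 10] 1) (.cons (.leaf [4, 0, 2, 1, 2, 0, 2, 0, 4, 0, 3, 0, 2, 0, 0, 3, 0, 0, 0, 0, 1] 12) (.cons (.leaf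 [10, 5, 10, 5, 0, 1, 0, 0, 0, 1, 0, 0, 0, 0, 10] 14) (.cons (.leaf [1, 0, 0, 1, 0, 0, 0, 0, 0, 0, 2] 8) (.cons (.leaf [1, 2, 2, 1, 0, 0, 0, 0, 0, 0, 2, 0, 2, 0, 0, 2, 0, 0, 0, 2] 8) (.cons (.leaf [10, 10, 20, 10, 0, 1, 0, 1, 0, 0, 10, 0, 20, 0, 0, 10, 0, 0, 0, 0, 10] 14) (.cons (.leaf [1, 1, 2, 0, 0, 0, 0, 0, 0, 0, 0, 0, 2, 0, 0, 2] 8) (.cons (.leaf [5, 5, 10, 0, 0, 1, 0, 0, 0, 0, 0, 0, 0, 0, 0, 0, 0, 0, 0, 0, 0, 10] 27) (.cons (.leaf [1, 1, 0, 0, 0, 0, 0, 0, 0, 0, 0, 0, 0, 0, 0, 0, 0, 0, 0, 2] 8) (.cons (.leaf [5, 10, 10, 5, 0, 1, 0, 1, 0, 1, 0, 0, 10] 1) (.cons (.leaf [5, 10, 20, 5, 0, 1, 0, 0, 0, 1, 0, 0, 10, 0, 10, 10] 14) .nil))))))))))))))) (.cons (.leaf [1, 0, 0, 2, 0, 0, 0, 0, 0, 0, 0, 1,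 0, 0, 1, 0, 0, 0, 0, 0, 1] 0) (.cons (.leaf [10, 20, 0, 0, 1, 20, 0, 20, 0, 0, 10, 0, 0, 10, 0, 0, 0, 0, 0, 10] 67) (.cons (.leaf [1, 0, 0, 2, 0, 2, 0, 2, 0, 0, 1, 0, 0, 1, 0, 0, 0, 0, 0, 1] 8) (.cons (.leaf [5, 10, 5, 0, 1, 0, 0, 0, 0, 0, 0, 0, 0, 10] 27) (.cons (.leaf [1, 0, 1, 0, 0, 0, 0, 0, 0, 0, 0, 0, 0, 2] 8) .nil))))))))))))))) (.cons (.leaf [2, 1, 2, 0, 0, 0, 2, 0, 1, 0, 0, 0, 0, 0, 1, 0, 2, 1] 4) (.cons (.node 3 (.cons (.node 2 (.cons (.leaf [10, 30, 20, 20, 0, 1, 0, 1, 0, 1, 30, 10, 0, 0, 0, 0, 20] 1) (.cons (.leaf [1, 1, 0, 1, 0, 0, 0, 0, 0, 0, 1, 0, 0, 0, 1, 0, 0, 0, 0, 0, 1] 4) (.cons (.leaf [1, 2, 1, 1, 0, 0, 0, 0, 0, 0, 2, 1, 0, 0, 0, 0, 1, 0, 0, 0, 1] 4) (.cons (.leaf [20, 20, 0,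 10, 0, 1, 0, 1, 0, 0, 0, 0, 10, 0, 0, 0, 10, 0, 0, 0, 0, 10] 14) (.cons (.leaf [10, 10, 10, 10, 0, 0, 0, 1, 0, 1, 20] 14) (.cons (.leaf [1, 1, 1, 1, 0, 0, 0, 0, 0, 0, 1, 1, 0, 0, 1, 0, 1] 4) (.cons (.leaf [5, 20, 20, 15, 0, 0, 0, 1, 0, 1, 30, 10, 0, 0, 0, 0, 10] 14) (.cons (.leaf [1, 2, 0, 1, 0, 0, 0, 0, 0, 0, 2, 0, 0, 0, 0, 0, 0, 0, 0, 0, 2] 8) (.cons (.leaf [5, 20, 10, 15, 0, 1, 0, 1, 0, 1, 20, 0, 0, 0, 0, 0, 10] 1) (.cons (.leaf [5, 10, 10, 5, 0, 0, 0, 1, 0, 0, 10, 0, 0, 0, 0, 0, 0, 0, 0, 0, 0, 10] 27) (.cons (.leaf [1, 2, 2, 1, 0, 0, 0, 0, 0, 0, 2, 2, 0, 0, 0, 0, 2] 8) (.cons (.leaf [1, 4, 2, 3, 0, 0, 0, 0, 0, 0, 4, 2, 0, 0, 2, 0, 2, 0, 0, 0, 2] 8) (.cons (.leaf [5, 10, 0, 5, 0, 1, 0, 0, 0, 0,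 0, 0, 0, 0, 0, 0, 10] 27) (.cons (.leaf [1, 0, 0, 1, 0, 0, 0, 0, 0, 0, 0, 0, 0, 0, 2] 8) .nil))))))))))))))) (.cons (.leaf [2, 0, 0, 2, 0, 2, 0, 2, 0, 0, 0, 0, 0, 1, 1, 0, 0, 1, 1] 4) (.cons (.leaf [2, 0, 1, 2, 0, 2, 0, 0, 0, 2, 1, 0, 0, 1, 0, 0, 0, 0, 1] 4) (.cons (.leaf [10, 10, 0, 0, 0, 0, 1] 27) (.cons (.leaf [20, 20, 10, 20, 0, 0, 1, 20, 0, 30, 0, 0, 0, 0, 10, 0, 0, 0, 10] 67) (.cons (.node 2 (.cons (.leaf [1, 1, 1, 0, 0, 0, 0, 0, 0, 0, 0, 1, 0, 0, 0, 0, 1, 0, 0, 1] 0) (.cons (.leaf [20, 20, 0, 10, 20, 0, 20, 0, 0, 1, 0, 10, 0, 0, 30, 0, 0, 0, 0, 0, 10] 67) (.cons (.leaf [10, 20, 10, 0, 20, 0, 20, 0, 0, 1, 0, 20, 0, 0, 10, 0, 10] 27) (.cons (.leaf [30, 20, 10, 20, 0, 1, 0, 1, 0, 1, 0, 0, 0,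 0, 30, 0, 10, 0, 0, 20] 1) (.cons (.leaf [10, 10, 0, 0, 0, 0, 0, 0, 0, 1] 27) (.cons (.leaf [2, 2, 2, 1, 2, 0, 2, 0, 0, 0, 0, 3, 0, 0, 3, 0, 2, 0, 0, 1] 4) (.cons (.leaf [10, 20, 20, 0, 20, 0, 0, 0, 0, 1, 10, 20, 0, 0, 0, 0, 10, 0, 0, 10] 27) (.cons (.leaf [10, 20, 20, 0, 40, 0, 0, 0, 0, 1, 10, 20, 0, 0, 10, 0, 0, 0, 0, 0, 0, 10] 67) (.cons (.leaf [15, 20, 10, 5, 0, 1, 0, 1, 0, 1, 0, 0, 0, 0, 0, 0, 10, 0, 0, 20] 1) (.cons (.leaf [5, 10, 0, 5, 0, 0, 0, 0, 0, 1, 0, 0, 0, 0, 10] 27) (.cons (.leaf [1, 0, 0, 0, 0, 0, 2, 0, 2, 0, 0, 1, 0, 0, 0, 0, 1, 0, 1] 4) (.cons (.leaf [5, 20, 10, 5, 20, 0, 20, 0, 0, 1, 0, 20, 0, 0, 20, 0, 10] 27) (.cons (.leaf [20, 0, 20, 10, 0, 1, 0, 1, 40, 0, 0, 10, 0, 0, 10, 0,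 20, 0, 0, 30] 14) (.cons (.leaf [1, 0, 0, 1, 0, 0, 0, 0, 0, 0, 0, 0, 0, 0, 2] 8) .nil))))))))))))))) (.cons (.leaf [1, 0, 1, 0, 0, 0, 0, 0, 0, 2] 8) (.cons (.leaf [1, 0, 0, 2, 0, 2, 0, 2, 0, 1, 0, 0, 0, 0, 1, 0, 0, 0, 1] 8) (.cons (.leaf [5, 10, 5, 0, 0, 0, 1, 0, 0, 10] 27) (.cons (.leaf [10, 20, 0, 20, 0, 0, 1, 20, 0, 10, 0, 0, 0, 0, 10, 0, 0, 0, 10] 67) (.cons (.leaf [1, 0, 0, 0, 0, 2, 0, 0, 0, 0, 1, 0, 0, 0, 0, 1, 0, 0, 0, 0, 1] 0) (.cons (.leaf [1, 0, 0, 2, 0, 2, 0, 0, 0, 0, 1, 0, 0, 1, 0, 0, 0, 0, 1] 4) (.cons (.node 2 (.cons (.leaf [10, 15, 20, 5, 0, 1, 0, 1, 0, 1, 0, 10, 0, 0, 0, 0, 20] 1) (.cons (.leaf [2, 1, 0, 1, 0, 0, 0, 0, 0, 0, 0, 0, 0, 0, 2, 0, 0, 0, 0, 0, 2] 8) (.cons (.leaf [1, 1,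 1, 0, 0, 0, 0, 0, 0, 0, 0, 1, 0, 0, 0, 0, 1, 0, 0, 0, 1] 4) (.cons (.leaf [10, 10, 10, 10, 0, 1, 0, 1, 0, 1, 0, 0, 0, 0, 10, 0, 10] 1) (.cons (.leaf [10, 5, 10, 5, 0, 0, 0, 1, 0, 1, 10] 14) (.cons (.leaf [4, 0, 2, 1, 2, 0, 2, 0, 4, 0, 0, 3, 0, 0, 3, 0, 2, 0, 0, 1] 12) (.cons (.leaf [5, 10, 20, 5, 0, 0, 0, 1, 0, 1, 10, 10, 0, 0, 0, 0, 10] 14) (.cons (.leaf [1, 1, 0, 0, 0, 0, 0, 0, 0, 0, 0, 0, 0, 0, 0, 0, 0, 0, 0, 0, 2] 8) (.cons (.leaf [5, 10, 10, 5, 0, 1, 0, 1, 0, 1, 0, 0, 0, 0, 0, 0, 10] 1) (.cons (.leaf [5, 5, 10, 0, 0, 0, 0, 1, 0, 0, 0, 0, 0, 0, 0, 0, 0, 0, 0, 0, 0, 10] 27) (.cons (.leaf [1, 1, 2, 0, 0, 0, 0, 0, 0, 0, 0, 2, 0, 0, 0, 0, 2] 8) (.cons (.leaf [1, 0, 2, 1, 4, 0, 0, 0, 0, 0, 2, 2, 0,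 0, 2] 8) (.cons (.leaf [10, 10, 20, 10, 0, 1, 0, 1, 0, 0, 0, 10, 0, 0, 10, 0, 20, 0, 0, 10] 14) (.cons (.leaf [1, 0, 0, 1, 0, 0, 0, 0, 0, 0, 0, 0, 0, 0, 2] 8) .nil))))))))))))))) (.cons (.leaf [10, 20, 0, 20, 0, 0, 1, 0, 0, 0, 10, 0, 0, 10, 0, 0, 0, 0, 10] 27) .nil))))))))))))))) (.cons (.leaf [2, 1, 0, 0, 2, 0, 2, 0, 0, 0, 1, 0, 1, 0, 0, 0, 2, 0, 1] 4) (.cons (.leaf [2, 0, 2, 0, 2, 0, 2, 0, 1, 0, 1, 0, 1, 0, 1] 4) (.cons (.node 2 (.cons (.node 3 (.cons (.leaf [10, 10, 20, 10, 0, 1, 0, 0, 0, 1, 0, 10, 0, 0, 0, 0, 0, 10, 10] 14) (.cons (.leaf [1, 1, 2, 1, 0, 0, 0, 0, 0, 0, 0, 1, 0, 0, 0, 1, 0, 0, 2, 1] 4) (.cons (.leaf [20, 0, 20, 10, 20, 0, 20, 0, 0, 1, 10, 20, 0, 0, 0, 10, 0, 0, 0, 10] 67) (.cons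 (.leaf [10, 10, 10, 10, 0, 1, 0, 1, 0, 0, 0, 0, 0, 0, 0, 0, 0, 0, 20] 14) (.cons (.leaf [1, 0, 1, 1, 0, 0, 0, 0, 0, 0, 1, 0, 0, 0, 0, 1, 0, 0, 1] 4) (.cons (.leaf [10, 20, 30, 20, 0, 1, 0, 1, 0, 1, 0, 20, 0, 0, 0, 0, 0, 0, 30, 10] 1) (.cons (.leaf [1, 0, 0, 1, 0, 0, 0, 0, 0, 0, 2] 8) (.cons (.leaf [1, 2, 4, 3, 0, 0, 0, 0, 0, 0, 2, 2, 0, 0, 0, 2, 0, 0, 4, 2] 8) (.cons (.leaf [5, 10, 10, 5, 0, 1, 0, 0, 0, 0, 0, 0, 0, 0, 0, 0, 0, 10, 10] 27) (.cons (.leaf [1, 0, 2, 1, 0, 0, 0, 0, 0, 0, 0, 0, 0, 0, 0, 2, 0, 0, 2] 8) (.cons (.leaf [5, 0, 10, 5, 0, 0, 0, 0, 0, 1, 0, 10] 27) (.cons (.leaf [1, 2, 2, 1, 0, 0, 0, 0, 0, 0, 0, 2, 0, 0, 0, 0, 0, 0, 2, 2] 8) (.cons (.leaf [5, 10, 20, 15, 0, 1, 0, 1, 0, 1, 0, 10,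 0, 0, 0, 0, 0, 0, 20] 1) (.cons (.leaf [5, 20, 20, 15, 0, 1, 0, 1, 0, 0, 0, 10, 0, 0, 0, 0, 0, 0, 30, 10] 14) .nil))))))))))))))) (.cons (.leaf [10, 20, 5, 20, 0, 10, 0, 0, 1, 0, 10, 0, 5, 0, 15, 0, 0, 0, 0, 5] 27) (.cons (.leaf [2, 2, 1, 2, 0, 2, 0, 0, 0, 1, 2, 0, 0, 0, 1, 0, 0, 2, 0, 1] 4) (.cons (.leaf [20, 20, 10, 0, 0, 0, 1, 0, 1, 0, 0, 0, 10, 0, 10, 0, 0, 0, 10] 14) (.cons (.node 3 (.cons (.leaf [20, 10, 10, 10, 0, 1, 0, 0, 0, 1, 10, 0, 0, 0, 0, 0, 0, 10, 0, 0, 10] 14) (.cons (.leaf [2, 1, 1, 0, 2, 0, 2, 0, 0, 0, 0, 0, 0, 0, 0, 2, 0, 0, 1, 1] 8) (.cons (.leaf [20, 20, 0, 10, 20, 0, 20, 0, 0, 1, 30, 0, 0, 0, 0, 10, 0, 0, 0, 10] 67) (.cons (.leaf [20, 10, 30, 20, 0, 1, 0, 1, 0, 1, 0, 0, 0, 0,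 0, 20, 0, 0, 30, 0, 10] 1) (.cons (.leaf [1, 0, 1, 1, 0, 0, 0, 0, 0, 0, 1, 0, 0, 0, 0, 1, 0, 0, 1] 4) (.cons (.leaf [10, 10, 0, 0, 0, 0, 0, 0, 0, 1] 27) (.cons (.leaf [1, 0, 0, 1, 0, 0, 0, 0, 0, 0, 2] 8) (.cons (.leaf [1, 1, 1, 1, 2, 0, 2, 0, 0, 0, 2, 0, 0, 0, 0, 2, 0, 0, 1, 1] 8) (.cons (.leaf [10, 0, 20, 10, 0, 1, 0, 0, 0, 0, 0, 0, 0, 0, 0, 10, 0, 10, 10, 0, 10] 27) (.cons (.leaf [1, 0, 2, 1, 0, 0, 0, 0, 0, 0, 0, 0, 0, 0, 0, 2, 0, 0, 2] 8) (.cons (.leaf [5, 10, 0, 5, 0, 0, 0, 0, 0, 1, 10] 27) (.cons (.leaf [10, 20, 0, 0, 20, 0, 20, 0, 0, 1, 10, 0, 0, 0, 0, 10, 0, 0, 0, 10] 67) (.cons (.leaf [10, 10, 10, 10, 0, 1, 0, 1, 0, 1, 0, 0, 0, 0, 0, 0, 0, 0, 10, 0, 10] 1) (.cons (.leaf [5, 10, 10, 5, 0,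 0, 0, 0, 0, 1, 0, 0, 0, 0, 0, 10, 0, 0, 10] 27) .nil))))))))))))))) (.cons (.leaf [1, 1, 1, 0, 0, 0, 0, 0, 0, 0, 1, 0, 0, 1, 0, 0, 0, 1] 4) (.cons (.leaf [1, 0, 1, 0, 0, 0, 0, 0, 0, 2, 0, 0, 0, 0, 0, 0, 0, 2] 0) (.cons (.leaf [1, 0, 0, 2, 0, 2, 0, 0, 0, 1, 0, 0, 0, 0, 1, 0, 0, 0, 0, 1] 4) (.cons (.node 3 (.cons (.leaf [10, 5, 10, 5, 0, 1, 0, 0, 0, 1, 0, 0, 0, 0, 0, 0, 0, 10] 14) (.cons (.leaf [2, 1, 2, 1, 0, 0, 0, 0, 0, 0, 0, 0, 0, 0, 0, 2, 0, 0, 2, 2] 8) (.cons (.leaf [2, 1, 0, 1, 0, 0, 0, 0, 0, 0, 2, 0, 0, 0, 0, 0, 0, 0, 0, 2] 8) (.cons (.leaf [10, 5, 20, 15, 0, 1, 0, 1, 0, 1, 0, 0, 0, 0, 0, 10, 0, 0, 20] 1) (.cons (.leaf [1, 0, 1, 1, 0, 0, 0, 0, 0, 0, 1, 0, 0, 0, 0, 1, 0, 0, 1] 4) (.cons (.leaf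 [10, 10, 10, 10, 0, 1, 0, 1, 0, 1, 0, 0, 0, 0, 0, 0, 0, 0, 10, 10] 1) (.cons (.leaf [1, 0, 0, 1, 0, 0, 0, 0, 0, 0, 2] 8) (.cons (.leaf [1, 1, 2, 2, 0, 0, 0, 0, 0, 0, 2, 0, 0, 0, 0, 2, 0, 0, 2, 2] 8) (.cons (.leaf [5, 5, 20, 10, 0, 1, 0, 0, 0, 1, 0, 0, 0, 0, 0, 10, 0, 10, 10] 14) (.cons (.leaf [1, 0, 2, 1, 0, 0, 0, 0, 0, 0, 0, 0, 0, 0, 0, 2, 0, 0, 2] 8) (.cons (.leaf [5, 0, 10, 5, 0, 0, 0, 0, 0, 1, 0, 10] 27) (.cons (.leaf [1, 1, 0, 0, 0, 0, 0, 0, 0, 0, 0, 0, 0, 0, 0, 0, 0, 0, 0, 2] 8) (.cons (.leaf [5, 5, 10, 10, 0, 1, 0, 1, 0, 1, 0, 0, 0, 0, 0, 0, 0, 0, 10] 1) (.cons (.leaf [10, 10, 20, 10, 0, 0, 0, 1, 0, 1, 0, 0, 0, 10, 0, 10, 0, 0, 20, 10] 14) .nil))))))))))))))) (.cons (.leaf [5, 10, 5, 0, 0,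 0, 0, 0, 1, 0, 0, 0, 0, 0, 10] 27) (.cons (.leaf [1, 2, 1, 0, 0, 0, 0, 0, 0, 0, 2, 0, 0, 0, 0, 0, 0, 2] 8) (.cons (.leaf [1, 2, 0, 4, 0, 2, 0, 0, 0, 0, 2, 0, 1, 0, 1, 0, 0, 0, 0, 1] 8) (.cons (.leaf [10, 20, 10, 0, 0, 0, 1, 0, 0, 0, 10, 0, 10, 0, 0, 0, 0, 10, 10] 27) (.cons (.leaf [1, 0, 1, 0, 0, 0, 0, 0, 0, 0, 0, 0, 0, 2] 8) .nil))))))))))))))) (.cons (.leaf [1, 1, 0, 0, 0, 0, 0, 0, 2, 0, 0, 0, 2] 0) (.cons (.leaf [1, 0, 2, 0, 0, 0, 2, 0, 1, 0, 0, 0, 0, 0, 1, 0, 0, 1] 4) (.cons (.leaf [1, 0, 0, 0, 2, 0, 2, 0, 0, 0, 1, 0, 1, 0, 0, 0, 0, 0, 1] 4) (.cons (.leaf [1, 0, 2, 0, 2, 0, 2, 0, 0, 0, 1, 0, 0, 0, 1, 0, 1] 8) (.cons (.node 2 (.cons (.node 3 (.cons (.leaf [10, 10, 10, 10, 0, 1, 0, 1, 0, 1, 10,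 10] 1) (.cons (.leaf [1, 1, 1, 0, 0, 0, 0, 0, 0, 0, 0, 1, 0, 0, 0, 1, 0, 0, 0, 1] 4) (.cons (.leaf [2, 2, 1, 1, 0, 0, 0, 0, 0, 0, 2, 2, 0, 0, 0, 0, 0, 0, 0, 2] 8) (.cons (.leaf [10, 10, 5, 5, 0, 1, 0, 1, 0, 0, 0, 0, 0, 0, 0, 0, 0, 0, 10] 14) (.cons (.leaf [2, 0, 1, 1, 0, 0, 0, 0, 0, 0, 2, 0, 0, 0, 0, 2] 8) (.cons (.leaf [10, 20, 15, 5, 0, 1, 0, 1, 0, 1, 0, 20, 0, 0, 0, 0, 0, 0, 0, 10] 1) (.cons (.leaf [1, 0, 0, 1, 0, 0, 0, 0, 0, 0, 2] 8) (.cons (.leaf [1, 2, 2, 1, 0, 0, 0, 0, 0, 0, 2, 2, 0, 0, 0, 2, 0, 0, 0, 2] 8) (.cons (.leaf [5, 10, 5, 0, 0, 1, 0, 0, 0, 0, 0, 0, 0, 0, 0, 0, 0, 10] 27) (.cons (.leaf [1, 0, 1, 0, 0, 0, 0, 0, 0, 0, 0, 0, 0, 0, 0, 2] 8) (.cons (.leaf [10, 20, 10, 10, 0, 1, 0, 0, 0,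 1, 10, 20, 0, 0, 0, 0, 10, 0, 0, 10] 14) (.cons (.leaf [1, 2, 1, 0, 0, 0, 0, 0, 0, 0, 0, 2, 0, 0, 0, 0, 0, 0, 0, 2] 8) (.cons (.leaf [5, 10, 10, 5, 0, 1, 0, 1, 0, 1, 0, 10] 1) (.cons (.leaf [5, 20, 10, 5, 0, 1, 0, 1, 0, 0, 0, 10, 0, 0, 0, 0, 0, 0, 10, 10] 14) .nil))))))))))))))) (.cons (.leaf [2, 0, 1, 2, 0, 2, 0, 0, 0, 1, 0, 0, 0, 2, 1, 0, 0, 0, 0, 1] 4) (.cons (.leaf [2, 1, 0, 2, 0, 2, 0, 0, 0, 1, 2, 0, 0, 0, 1, 0, 0, 0, 0, 1] 4) (.cons (.node 3 (.cons (.leaf [10, 10, 5, 5, 0, 1, 0, 1, 0, 0, 0, 0, 0, 0, 0, 0, 0, 0, 0, 0, 0, 10] 14) (.cons (.leaf [2, 2, 1, 1, 0, 0, 0, 0, 0, 0, 0, 0, 0, 0, 2, 2, 0, 0, 0, 2] 8) (.cons (.leaf [1, 1, 0, 1, 0, 0, 0, 0, 0, 0, 1, 0, 0, 0, 1, 0, 0, 0, 0, 1] 4) (.cons (.leaf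 [10, 10, 10, 10, 0, 1, 0, 1, 0, 1, 0, 0, 0, 0, 10, 10] 1) (.cons (.leaf [2, 0, 1, 1, 0, 0, 0, 0, 0, 0, 2, 0, 0, 0, 0, 2] 8) (.cons (.leaf [10, 20, 5, 15, 0, 1, 0, 1, 0, 1, 0, 0, 0, 0, 20, 0, 0, 0, 0, 10] 1) (.cons (.leaf [1, 0, 0, 1, 0, 0, 0, 0, 0, 0, 2] 8) (.cons (.leaf [1, 2, 1, 2, 0, 0, 0, 0, 0, 0, 2, 0, 0, 0, 2, 2, 0, 0, 0, 2] 8) (.cons (.leaf [5, 10, 0, 5, 0, 0, 0, 1, 0, 0, 0, 0, 10] 27) (.cons (.leaf [1, 0, 1, 0, 0, 0, 0, 0, 0, 0, 0, 0, 0, 0, 0, 2] 8) (.cons (.leaf [5, 20, 5, 10, 0, 1, 0, 1, 0, 0, 0, 0, 0, 0, 10, 0, 0, 0, 0, 10, 0, 10] 14) (.cons (.leaf [1, 2, 0, 1, 0, 0, 0, 0, 0, 0, 0, 0, 0, 0, 2, 0, 0, 0, 0, 2] 8) (.cons (.leaf [5, 10, 5, 10, 0, 1, 0, 1, 0, 1, 0, 0, 0, 0, 10] 1) (.cons (.leaf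 [10, 20, 10, 10, 0, 0, 0, 1, 0, 1, 0, 0, 0, 10, 20, 10, 0, 0, 0, 10] 14) .nil))))))))))))))) (.cons (.node 3 (.cons (.leaf [20, 10, 5, 15, 0, 1, 0, 1, 0, 1, 20, 0, 0, 0, 0, 0, 0, 0, 0, 0, 10] 1) (.cons (.leaf [20, 20, 10, 0, 20, 0, 20, 0, 0, 1, 10, 0, 0, 0, 0, 30, 0, 0, 0, 10] 67) (.cons (.leaf [20, 20, 0, 10, 20, 0, 20, 0, 0, 1, 30, 0, 0, 0, 0, 10, 0, 0, 0, 10] 67) (.cons (.leaf [20, 10, 15, 5, 0, 1, 0, 1, 0, 1, 0, 0, 0, 0, 0, 20, 0, 0, 0, 0, 10] 1) (.cons (.leaf [2, 0, 1, 1, 0, 0, 0, 0, 0, 0, 2, 0, 0, 0, 0, 2] 8) (.cons (.leaf [10, 10, 0, 0, 0, 0, 0, 0, 0, 1] 27) (.cons (.leaf [1, 0, 0, 1, 0, 0, 0, 0, 0, 0, 2] 8) (.cons (.leaf [2, 2, 1, 1, 4, 0, 4, 0, 0, 0, 4, 0, 0, 0, 0, 4, 0, 0, 0, 2] 16) (.cons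 (.leaf [10, 0, 10, 10, 0, 1, 0, 1, 0, 0, 10, 0, 0, 0, 0, 10, 0, 0, 0, 0, 10] 14) (.cons (.leaf [1, 0, 1, 0, 0, 0, 0, 0, 0, 0, 0, 0, 0, 0, 0, 2] 8) (.cons (.leaf [5, 10, 0, 5, 0, 0, 0, 0, 0, 1, 10] 27) (.cons (.leaf [10, 20, 0, 0, 20, 0, 20, 0, 0, 1, 10, 0, 0, 0, 0, 10, 0, 0, 0, 10] 67) (.cons (.leaf [10, 10, 5, 5, 0, 1, 0, 1, 0, 1, 0, 0, 0, 0, 0, 0, 0, 0, 0, 0, 10] 1) (.cons (.leaf [5, 10, 5, 0, 0, 0, 0, 0, 0, 1, 0, 0, 0, 0, 0, 10] 27) .nil))))))))))))))) (.cons (.leaf [2, 1, 1, 0, 0, 0, 0, 0, 0, 0, 2, 0, 0, 2] 8) (.cons (.leaf [1, 0, 1, 0, 0, 0, 0, 0, 0, 2, 0, 0, 0, 0, 0, 0, 0, 2] 0) (.cons (.leaf [1, 0, 0, 2, 0, 2, 0, 0, 0, 1, 0, 0, 0, 0, 1, 0, 0, 0, 0, 1] 4) (.cons (.node 3 (.cons (.leaf [10,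 5, 5, 10, 0, 1, 0, 1, 0, 1, 10] 1) (.cons (.leaf [2, 1, 1, 0, 0, 0, 0, 0, 0, 0, 0, 0, 0, 0, 0, 2, 0, 0, 0, 2] 8) (.cons (.leaf [2, 1, 0, 1, 0, 0, 0, 0, 0, 0, 2, 0, 0, 0, 0, 0, 0, 0, 0, 2] 8) (.cons (.leaf [10, 5, 10, 5, 0, 1, 0, 1, 0, 1, 0, 0, 0, 0, 0, 10] 1) (.cons (.leaf [2, 0, 1, 1, 0, 0, 0, 0, 0, 0, 2, 0, 0, 0, 0, 2] 8) (.cons (.leaf [10, 10, 5, 5, 0, 1, 0, 1, 0, 1, 0, 0, 0, 0, 0, 0, 0, 0, 0, 10] 1) (.cons (.leaf [1, 0, 0, 1, 0, 0, 0, 0, 0, 0, 2] 8) (.cons (.leaf [1, 1, 1, 1, 0, 0, 0, 0, 0, 0, 2, 0, 0, 0, 0, 2, 0, 0, 0, 2] 8) (.cons (.leaf [10, 0, 10, 10, 0, 1, 0, 1, 0, 0, 10, 0, 0, 0, 0, 10, 0, 0, 0, 0, 10] 14) (.cons (.leaf [1, 0, 1, 0, 0, 0, 0, 0, 0, 0, 0, 0, 0, 0, 0, 2] 8) (.cons (.leaf [10,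 10, 0, 10, 0, 1, 0, 0, 0, 1, 10, 0, 0, 0, 0, 0, 10, 0, 0, 10] 14) (.cons (.leaf [1, 1, 0, 0, 0, 0, 0, 0, 0, 0, 0, 0, 0, 0, 0, 0, 0, 0, 0, 2] 8) (.cons (.leaf [5, 5, 5, 5, 0, 1, 0, 1, 0, 1] 1) (.cons (.leaf [10, 10, 10, 0, 0, 0, 0, 1, 0, 1, 0, 0, 0, 10, 0, 10, 0, 0, 0, 10] 14) .nil))))))))))))))) (.cons (.leaf [1, 1, 0, 0, 0, 0, 0, 0, 0, 0, 0, 0, 0, 0, 2, 0, 0, 0, 0, 0, 2] 0) (.cons (.leaf [1, 1, 0, 0, 0, 0, 0, 0, 0, 0, 2] 8) (.cons (.leaf [1, 1, 1, 2, 0, 2, 0, 0, 0, 1, 2, 0, 0, 2, 1, 0, 0, 0, 0, 1] 4) (.cons (.leaf [10, 10, 10, 0, 1, 0, 1, 0, 0, 0, 10, 0, 0, 10, 0, 0, 0, 0, 10] 14) (.cons (.leaf [1, 0, 1, 0, 0, 0, 0, 0, 0, 0, 0, 0, 0, 2] 8) .nil))))))))))))))) (.cons (.leaf [1, 0, 2, 0, 0, 0, 0,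 0, 0, 1, 0, 0, 0, 0, 0, 1, 0, 1] 0) (.cons (.leaf [1, 0, 0, 0, 2, 0, 0, 0, 0, 0, 0, 1, 0, 1, 0, 0, 0, 0, 1] 0) (.cons (.leaf [1, 1, 0, 0, 0, 0, 0, 0, 0, 0, 0, 0, 0, 0, 0, 0, 2] 8) .nil))))))))))))))) (.cons (.leaf [1, 2, 0, 0, 0, 0, 0, 1, 0, 0, 0, 0, 0, 1, 0, 0, 0, 1] 0) (.cons (.leaf [1, 0, 0, 2, 0, 0, 0, 0, 0, 1, 0, 1, 0, 0, 0, 0, 1] 0) (.cons (.leaf [1, 2, 0, 2, 0, 0, 0, 0, 0, 1, 0, 0, 0, 1, 0, 0, 0, 0, 1] 4) (.cons (.leaf [1, 0, 0, 0, 0, 2, 0, 0, 1, 0, 0, 0, 1, 0, 0, 1] 0) (.cons (.leaf [1, 2, 0, 0, 0, 2, 0, 0, 1, 0, 0, 0, 0, 0, 1, 0, 0, 1] 4) (.cons (.leaf [1, 0, 0, 2, 0, 2, 0, 0, 0, 0, 1, 0, 1, 0, 0, 0, 1] 4) (.cons (.leaf [1, 2, 0, 2, 0, 2, 0, 0, 0, 0, 1, 0, 0, 0, 1, 0, 0, 0, 1] 8) .nil)))))))))))))))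

theorem no_half {m11 m12 m13 m21 m22 m23 m31 m32 m33 : ℝ}
    (d1 : 2 ≤ m11) (d2 : 2 ≤ m22) (d3 : 2 ≤ m33)
    (k1 : m11 ≤ 53 / 20) (k2 : m22 ≤ 53 / 20) (k3 : m33 ≤ 53 / 20)
    (r1 : m11 + m12 + m13 < 4) (r2 : m11 + m12 - m13 < 4) (r3 : m11 - m12 + m13 < 4)
    (r4 : m11 - m12 - m13 < 4)
    (s1 : m22 + m21 + m23 < 4) (s2 : m22 + m21 - m23 < 4) (s3 : m22 - m21 + m23 < 4)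
    (s4 : m22 - m21 - m23 < 4)
    (t1 : m33 + m31 + m32 < 4) (t2 : m33 + m31 - m32 < 4) (t3 : m33 - m31 + m32 < 4)
    (t4 : m33 - m31 - m32 < 4)
    (o1 : OutD ((m11 + m21 + m31) / 2) ((m12 + m22 + m32) / 2) ((m13 + m23 + m33) / 2))
    (o2 : OutD ((m11 + m21 - m31) / 2) ((m12 + m22 - m32) / 2) ((m13 + m23 - m33) / 2))
    (o3 : OutD ((m11 - m21 + m31) / 2) ((m12 - m22 + m32) / 2) ((m13 - m23 + m33) / 2))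
    (o4 : OutD ((m11 - m21 - m31) / 2) ((m12 - m22 - m32) / 2) ((m13 - m23 - m33) / 2)) :
    False := by
  refine refute 64 [outForms [1, 0, 0, 1, 0, 0, 1, 0, 0, 0] [0, 1, 0, 0, 1, 0, 0, 1, 0, 0] [0, 0, 1, 0, 0, 1, 0, 0, 1, 0],
      outForms [1, 0, 0, 1, 0, 0, -1, 0, 0, 0] [0, 1, 0, 0, 1, 0, 0, -1, 0, 0] [0, 0, 1, 0, 0, 1, 0, 0, -1, 0],
      outForms [1, 0, 0, -1, 0, 0, 1, 0, 0, 0] [0, 1, 0, 0, -1, 0, 0, 1, 0, 0] [0, 0, 1, 0, 0, -1, 0, 0, 1, 0],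
      outForms [1, 0, 0, -1, 0, 0, -1, 0, 0, 0] [0, 1, 0, 0, -1, 0, 0, -1, 0, 0] [0, 0, 1, 0, 0, -1, 0, 0, -1, 0]]
    halfTree halfBase (a := m11) (b := m12) (c := m13) (x := m21) (u := m22) (y := m23) (v := m31)
    (z := m32) (w := m33) ?_ ?_ (by decide +kernel)
  · unfold halfBase
    simp only [List.forall_mem_cons]
    exact ⟨holds_nn (by rw [lin_ten]; push_cast; linarith only [d1]), holds_nn (by rw [lin_ten]; push_cast; linarith only [k1]), holds_nn (by rw [lin_ten]; push_cast; linarith only [d2]), holds_nn (by rw [lin_ten]; push_cast; linarith only [k2]), holds_nn (by rw [lin_ten]; push_cast; linarith only [d3]), holds_nn (by rw [lin_ten]; push_cast; linarith only [k3]), holds_pos (by rw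 [lin_ten]; push_cast; linarith only [r1]), holds_pos (by rw [lin_ten]; push_cast; linarith only [r2]), holds_pos (by rw [lin_ten]; push_cast; linarith only [r3]), holds_pos (by rw [lin_ten]; push_cast; linarith only [r4]), holds_pos (by rw [lin_ten]; push_cast; linarith only [s1]), holds_pos (by rw [lin_ten]; push_cast; linarith only [s2]), holds_pos (by rw [lin_ten]; push_cast; linarith only [s3]), holds_pos (by rw [lin_ten]; push_cast; linarith only [s4]), holds_pos (by rw [lin_ten]; push_cast; linarith only [t1]), holds_pos (by rw [lin_ten]; push_cast; linarith only [t2]), holds_pos (by rw [lin_ten]; push_cast; linarith only [t3]), holds_pos (by rw [lin_ten]; push_cast; linarith only [t4]),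
      fun p hp => absurd hp List.not_mem_nil⟩
  · simp only [List.forall_mem_cons]
    exact ⟨outForms_spec o1 (by rw [lin_ten]; push_cast; ring) (by rw [lin_ten]; push_cast; ring) (by rw [lin_ten]; push_cast; ring), outForms_spec o2 (by rw [lin_ten]; push_cast; ring) (by rw [lin_ten]; push_cast; ring) (by rw [lin_ten]; push_cast; ring), outForms_spec o3 (by rw [lin_ten]; push_cast; ring) (by rw [lin_ten]; push_cast; ring) (by rw [lin_ten]; push_cast; ring), outForms_spec o4 (by rw [lin_ten]; push_cast; ring) (by rw [lin_ten]; push_cast; ring) (by rw [lin_ten]; push_cast; ring),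
      fun p hp => absurd hp List.not_mem_nil⟩

theorem no_half2 {m11 m12 m13 m21 m22 m23 : ℝ}
    (d1 : 2 ≤ m11) (d2 : 2 ≤ m22) (k1 : m11 ≤ 53 / 20) (k2 : m22 ≤ 53 / 20)
    (r1 : m11 + m12 + m13 < 4) (r2 : m11 + m12 - m13 < 4) (r3 : m11 - m12 + m13 < 4)
    (r4 : m11 - m12 - m13 < 4)
    (s1 : m22 + m21 + m23 < 4) (s2 : m22 + m21 - m23 < 4) (s3 : m22 - m21 + m23 < 4)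
    (s4 : m22 - m21 - m23 < 4)
    (o1 : OutD ((m11 + m21) / 2) ((m12 + m22) / 2) ((m13 + m23) / 2))
    (o2 : OutD ((m11 - m21) / 2) ((m12 - m22) / 2) ((m13 - m23) / 2)) :
    False := by
  rcases o1.alts with h | h | h | h | h | h | h | h | h | h | h | h | h | h
  all_goals try linarith
  all_goals rcases o2.alts with g | g | g | g | g | g | g | g | g | g | g | g | g | g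
  all_goals linarith

end Pool.Agent.Helper84.KBL
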