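import Pool.Agent.Helper84.Tet.Defs
set_option autoImplicit false
namespace Pool.Agent.Helper84.KBL
open Pool.Agent.Helper84.Tet (OutD)

/-- The point `(b0 + b1 + b2) / 3` is not in the lattice. -/
theorem no_third {m11 m12 m13 m21 m22 m23 m31 m32 m33 : ℝ}
    (d1 : 2 ≤ m11) (d2 : 2 ≤ m22) (d3 : 2 ≤ m33)
    (k1 : m11 ≤ 53 / 20) (k2 : m22 ≤ 53 / 20) (k3 : m33 ≤ 53 / 20)
    (r1 : m11 + m12 + m13 < 4) (r2 : m11 + m12 - m13 < 4) (r3 : m11 - m12 + m13 < 4)
    (r4 : m11 - m12 - m13 < 4)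
    (s1 : m22 + m21 + m23 < 4) (s2 : m22 + m21 - m23 < 4) (s3 : m22 - m21 + m23 < 4)
    (s4 : m22 - m21 - m23 < 4)
    (t1 : m33 + m31 + m32 < 4) (t2 : m33 + m31 - m32 < 4) (t3 : m33 - m31 + m32 < 4)
    (t4 : m33 - m31 - m32 < 4)
    (o0 : OutD ((m11 + m21 + m31) / 3) ((m12 + m22 + m32) / 3) ((m13 + m23 + m33) / 3))
    (o1 : OutD ((-2 * m11 + m21 + m31) / 3) ((-2 * m12 + m22 + m32) / 3)
      ((-2 * m13 + m23 + m33) / 3))
    (o2 : OutD ((m11 - 2 * m21 + m31) / 3) ((m12 - 2 * m22 + m32) / 3)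
      ((m13 - 2 * m23 + m33) / 3))
    (o3 : OutD ((m11 + m21 - 2 * m31) / 3) ((m12 + m22 - 2 * m32) / 3)
      ((m13 + m23 - 2 * m33) / 3)) :
    False := by
  rcases o0.alts with h | h | h | h | h | h | h | h | h | h | h | h | h | h
  · rcases o1.alts with g | g | g | g | g | g | g | g | g | g | g | g | g | g <;> linarith
  · linarith
  · rcases o2.alts with g | g | g | g | g | g | g | g | g | g | g | g | g | g <;> linarith
  · linarith
  · rcases o3.alts with g | g | g | g | g | g | g | g | g | g | g | g | g | g <;> linarith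
  all_goals linarith

end Pool.Agent.Helper84.KBL
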