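import Pool.Agent.Helper58.KB.Defs
import Pool.Agent.Helper84.KBL.Half
import Pool.Agent.Helper84.KBL.Third
import Pool.Agent.Helper84.KBL.Perm
import Pool.Agent.Helper84.KBL.Comb
import Pool.Agent.Helper84.Dbl.VolLow
/-!
# Lattice reduction for the triakis tetrahedra
-/
set_option autoImplicit false
namespace Pool.Agent.Helper84.KBL
open MeasureTheory
open Pool.Agent.Helper84.Tet (OutD det3 minkowski_TBox exists_even_comb abs4)
open Pool.Agent.Helper84.Dbl (covolume_low)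
open Pool.Agent.Helper58.KB

theorem csum : ∀ i : Fin 3, (if (0:Fin 3) = i then (53/20:ℝ) else 2) + (if (1:Fin 3) = i then 53/20 else 2) + (if (2:Fin 3) = i then 53/20 else 2) = 133/20
  | 0 => by rw [if_pos rfl, if_neg (by decide), if_neg (by decide)]; norm_num
  | 1 => by rw [if_neg (by decide), if_pos rfl, if_neg (by decide)]; norm_num
  | 2 => by rw [if_neg (by decide), if_neg (by decide), if_pos rfl]; norm_num
theorem cprod : ∀ i : Fin 3, (if (0:Fin 3) = i then (53/20:ℝ) else 2) * (if (1:Fin 3) = i then 53/20 else 2) * (if (2:Fin 3) = i then 53/20 else 2) = 53/5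
  | 0 => by rw [if_pos rfl, if_neg (by decide), if_neg (by decide)]; norm_num
  | 1 => by rw [if_neg (by decide), if_pos rfl, if_neg (by decide)]; norm_num
  | 2 => by rw [if_neg (by decide), if_neg (by decide), if_pos rfl]; norm_num

theorem outD_swap12 {x y z : ℝ} (h : OutD x y z) : OutD y x z := by
  unfold OutD at *
  rw [add_comm |y| |x|]
  tauto

theorem outD_swap23 {x y z : ℝ} (h : OutD x y z) : OutD x z y := by
  unfold OutD at *
  rw [add_right_comm |x| |z| |y|]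
  tauto

theorem outD_neg1 {x y z : ℝ} (h : OutD x y z) : OutD (-x) y z := by
  unfold OutD at *
  rwa [abs_neg]

theorem outD_neg2 {x y z : ℝ} (h : OutD x y z) : OutD x (-y) z := by
  unfold OutD at *
  rwa [abs_neg]

theorem outD_neg3 {x y z : ℝ} (h : OutD x y z) : OutD x y (-z) := by
  unfold OutD at *
  rwa [abs_neg]

theorem outD_of_outDK {Q x y z : ℝ} (hQ : 0 < Q) (h : OutDK Q x y z) : OutD x y z := by
  unfold OutD
  by_cases h1 : 2 ≤ |x|
  · exact Or.inl h1
  by_cases h2 : 2 ≤ |y|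
  · exact Or.inr (Or.inl h2)
  by_cases h3 : 2 ≤ |z|
  · exact Or.inr (Or.inr (Or.inl h3))
  refine Or.inr (Or.inr (Or.inr ?_))
  by_contra hc
  push Not at h1 h2 h3 hc
  have h4 := mul_lt_mul_of_pos_left hc hQ
  rcases h with h | h | h | h | h | h <;> linarith

/-- the three sign case of index three -/
theorem no_third_sign {s0 s1 s2 : ℝ} (hs0 : s0 = -1 ∨ s0 = 1) (hs1 : s1 = -1 ∨ s1 = 1)
    (hs2 : s2 = -1 ∨ s2 = 1) {m11 m12 m13 m21 m22 m23 m31 m32 m33 : ℝ}
    (d1 : 2 ≤ m11) (d2 : 2 ≤ m22) (d3 : 2 ≤ m33)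
    (k1 : m11 ≤ 53 / 20) (k2 : m22 ≤ 53 / 20) (k3 : m33 ≤ 53 / 20)
    (r1 : m11 + |m12| + |m13| < 4) (r2 : m22 + |m21| + |m23| < 4) (r3 : m33 + |m31| + |m32| < 4)
    (o0 : OutD ((s0 * m11 + s1 * m21 + s2 * m31) / 3) ((s0 * m12 + s1 * m22 + s2 * m32) / 3)
      ((s0 * m13 + s1 * m23 + s2 * m33) / 3))
    (o1 : OutD ((-2 * s0 * m11 + s1 * m21 + s2 * m31) / 3)
      ((-2 * s0 * m12 + s1 * m22 + s2 * m32) / 3) ((-2 * s0 * m13 + s1 * m23 + s2 * m33) / 3))
    (o2 : OutD ((s0 * m11 - 2 * s1 * m21 + s2 * m31) / 3)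
      ((s0 * m12 - 2 * s1 * m22 + s2 * m32) / 3) ((s0 * m13 - 2 * s1 * m23 + s2 * m33) / 3))
    (o3 : OutD ((s0 * m11 + s1 * m21 - 2 * s2 * m31) / 3)
      ((s0 * m12 + s1 * m22 - 2 * s2 * m32) / 3) ((s0 * m13 + s1 * m23 - 2 * s2 * m33) / 3)) :
    False := by
  have e0 : s0 * s0 = 1 := by rcases hs0 with h | h <;> rw [h] <;> norm_num
  have e1 : s1 * s1 = 1 := by rcases hs1 with h | h <;> rw [h] <;> norm_num
  have e2 : s2 * s2 = 1 := by rcases hs2 with h | h <;> rw [h] <;> norm_num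
  have f0 : |s0| = 1 := by rcases hs0 with h | h <;> rw [h] <;> norm_num
  have f1 : |s1| = 1 := by rcases hs1 with h | h <;> rw [h] <;> norm_num
  have f2 : |s2| = 1 := by rcases hs2 with h | h <;> rw [h] <;> norm_num
  have g : ∀ s t x : ℝ, |s| = 1 → |t| = 1 → |s * t * x| = |x| := by
    intro s t x h1 h2
    rw [abs_mul, abs_mul, h1, h2, one_mul, one_mul]
  have g1 : ∀ s x y : ℝ, |s| = 1 → x = s * y → |x| = |y| := by
    intro s x y h1 h2
    rw [h2, abs_mul, h1, one_mul]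
  have cg : ∀ {x y z x' y' z' : ℝ}, OutD x y z → |x'| = |x| → |y'| = |y| → |z'| = |z| →
      OutD x' y' z' := by
    intro x y z x' y' z' h hx hy hz
    unfold OutD at *
    rwa [hx, hy, hz]
  obtain ⟨A1, A2, A3, A4⟩ := abs4 (a := m11) (x := s0 * s1 * m12) (y := s0 * s2 * m13)
    (by rw [g _ _ _ f0 f1, g _ _ _ f0 f2]; exact r1)
  obtain ⟨B1, B2, B3, B4⟩ := abs4 (a := m22) (x := s1 * s0 * m21) (y := s1 * s2 * m23)
    (by rw [g _ _ _ f1 f0, g _ _ _ f1 f2]; exact r2)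
  obtain ⟨D1, D2, D3, D4⟩ := abs4 (a := m33) (x := s2 * s0 * m31) (y := s2 * s1 * m32)
    (by rw [g _ _ _ f2 f0, g _ _ _ f2 f1]; exact r3)
  refine no_third d1 d2 d3 k1 k2 k3 A1 A2 A3 A4 B1 B2 B3 B4 D1 D2 D3 D4
    (cg o0 (g1 s0 _ _ f0 ?_) (g1 s1 _ _ f1 ?_) (g1 s2 _ _ f2 ?_))
    (cg o1 (g1 s0 _ _ f0 ?_) (g1 s1 _ _ f1 ?_) (g1 s2 _ _ f2 ?_))
    (cg o2 (g1 s0 _ _ f0 ?_) (g1 s1 _ _ f1 ?_) (g1 s2 _ _ f2 ?_))
    (cg o3 (g1 s0 _ _ f0 ?_) (g1 s1 _ _ f1 ?_) (g1 s2 _ _ f2 ?_))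
  · linear_combination (-m11 / 3) * e0
  · linear_combination (-m22 / 3) * e1
  · linear_combination (-m33 / 3) * e2
  · linear_combination (2 * m11 / 3) * e0
  · linear_combination (-m22 / 3) * e1
  · linear_combination (-m33 / 3) * e2
  · linear_combination (-m11 / 3) * e0
  · linear_combination (2 * m22 / 3) * e1
  · linear_combination (-m33 / 3) * e2
  · linear_combination (-m11 / 3) * e0
  · linear_combination (-m22 / 3) * e1
  · linear_combination (2 * m33 / 3) * e2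

/-- the coset of `P` avoids the interior of `2 K_Q` -/
theorem outAll_of {Q : ℝ} {L : Submodule ℤ (Fin 3 → ℝ)} {b : Fin 3 → (Fin 3 → ℝ)}
    (hmem : ∀ c0 c1 c2 : ℤ, (c0 : ℝ) • b 0 + (c1 : ℝ) • b 1 + (c2 : ℝ) • b 2 ∈ L)
    {P : Fin 3 → ℝ} (hP : ∀ u ∈ L, OutTK Q (P 0 + u 0) (P 1 + u 1) (P 2 + u 2)) :
    OutAll Q (P 0) (P 1) (P 2) (b 0 0) (b 0 1) (b 0 2) (b 1 0) (b 1 1) (b 1 2)
      (b 2 0) (b 2 1) (b 2 2) := by
  intro i j k
  have h := hP _ (hmem i j k)
  simp only [Pi.add_apply, Pi.smul_apply, smul_eq_mul] at h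
  convert h using 1 <;> ring

theorem covolume_ge {Q : ℝ} (hQ : 0 < Q)
    (hcore : ∀ m11 m12 m13 m21 m22 m23 m31 m32 m33 : ℝ,
      Hyp Q (53 / 20) m11 m12 m13 m21 m22 m23 m31 m32 m33 →
      2999 / 400 ≤ m11 * m22 * m33 + m12 * m23 * m31 + m13 * m21 * m32 - m11 * m23 * m32 -
        m22 * m13 * m31 - m33 * m12 * m21)
    (L : Submodule ℤ (Fin 3 → ℝ)) [DiscreteTopology L] [IsZLattice ℝ L]
    (hLK : ∀ v ∈ L, v ≠ 0 → OutDK Q (v 0) (v 1) (v 2))
    (f0 : ∃ P : Fin 3 → ℝ, InK Q (2 * Q + 2) (P 0) (P 1) (P 2) ∧ 2 ≤ -P 0 - P 1 - P 2 ∧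
      ∀ u ∈ L, OutTK Q (P 0 + u 0) (P 1 + u 1) (P 2 + u 2))
    (f1 : ∃ P : Fin 3 → ℝ, InK Q (2 * Q + 2) (P 0) (P 1) (P 2) ∧ 2 ≤ -P 0 + P 1 + P 2 ∧
      ∀ u ∈ L, OutTK Q (P 0 + u 0) (P 1 + u 1) (P 2 + u 2))
    (f2 : ∃ P : Fin 3 → ℝ, InK Q (2 * Q + 2) (P 0) (P 1) (P 2) ∧ 2 ≤ P 0 - P 1 + P 2 ∧
      ∀ u ∈ L, OutTK Q (P 0 + u 0) (P 1 + u 1) (P 2 + u 2))
    (f3 : ∃ P : Fin 3 → ℝ, InK Q (2 * Q + 2) (P 0) (P 1) (P 2) ∧ 2 ≤ P 0 + P 1 - P 2 ∧
      ∀ u ∈ L, OutTK Q (P 0 + u 0) (P 1 + u 1) (P 2 + u 2)) :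
    2999 / 400 ≤ ZLattice.covolume L := by
  by_contra hlt
  push Not at hlt
  have hL : ∀ v ∈ L, v ≠ 0 → OutD (v 0) (v 1) (v 2) :=
    fun v hv h0 => outD_of_outDK hQ (hLK v hv h0)
  have hV2 : 29 / 4 ≤ ZLattice.covolume L := covolume_low L hL
  -- the three vectors
  have hb : ∀ i : Fin 3, ∃ b ∈ L, 2 ≤ b i ∧ b i < 53 / 20 ∧ |b 0| + |b 1| + |b 2| < 4 := by
    intro i
    obtain ⟨v, hvL, hv0, hv1, hv2⟩ := minkowski_TBox L (fun j => if j = i then 53 / 20 else 2)
      (fun j => by split_ifs <;> norm_num)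
      (by show (4 : ℝ) ≤ _; rw [csum i]; norm_num)
      (by
        show 8 * ZLattice.covolume L + 4 / 3 * (((if (0:Fin 3) = i then (53/20:ℝ) else 2) +
          (if (1:Fin 3) = i then 53/20 else 2) + (if (2:Fin 3) = i then 53/20 else 2)) - 4) ^ 3 <
          8 * ((if (0:Fin 3) = i then (53/20:ℝ) else 2) * (if (1:Fin 3) = i then 53/20 else 2) *
          (if (2:Fin 3) = i then 53/20 else 2))
        rw [csum i, cprod i]; norm_num; linarith)
    have hvi : 2 ≤ |v i| := by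
      have hj : ∀ j, j ≠ i → |v j| < 2 := by
        intro j hji
        have h5 : |v j| < (if j = i then 53 / 20 else 2) := hv1 j
        rwa [if_neg hji] at h5
      by_contra hc
      push Not at hc
      have hall : ∀ j, |v j| < 2 := by
        intro j
        by_cases hji : j = i
        · rw [hji]; exact hc
        · exact hj j hji
      rcases (hL v hvL hv0) with h | h | h | h
      · linarith [hall 0]
      · linarith [hall 1]
      · linarith [hall 2]
      · linarith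
    have hvi2 : |v i| < 53 / 20 := by
      have h5 : |v i| < (if i = i then 53 / 20 else 2) := hv1 i
      rwa [if_pos rfl] at h5
    rcases abs_cases (v i) with ⟨h1, h2⟩ | ⟨h1, h2⟩
    · exact ⟨v, hvL, by linarith, by linarith, hv2⟩
    · refine ⟨-v, L.neg_mem hvL, ?_, ?_, ?_⟩
      · rw [Pi.neg_apply]; linarith
      · rw [Pi.neg_apply]; linarith
      · simp only [Pi.neg_apply, abs_neg]; exact hv2
  choose b hbL hb2 hb3 hb4 using hb
  have q0 := hb2 0
  have q1 := hb2 1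
  have q2 := hb2 2
  have p0 := hb3 0
  have p1 := hb3 1
  have p2 := hb3 2
  have R0 : b 0 0 + |b 0 1| + |b 0 2| < 4 := by
    have := hb4 0
    rwa [abs_of_nonneg (by linarith : (0:ℝ) ≤ b 0 0)] at this
  have R1 : b 1 1 + |b 1 0| + |b 1 2| < 4 := by
    have := hb4 1
    rw [abs_of_nonneg (by linarith : (0:ℝ) ≤ b 1 1)] at this
    linarith
  have R2 : b 2 2 + |b 2 0| + |b 2 1| < 4 := by
    have := hb4 2
    rw [abs_of_nonneg (by linarith : (0:ℝ) ≤ b 2 2)] at this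
    linarith
  have hdetne : (Matrix.of b).det ≠ 0 := by
    apply det_ne_zero_of_sum_row_lt_diag
    intro k
    rw [Finset.sum_erase_eq_sub (Finset.mem_univ k), Fin.sum_univ_three]
    simp only [Matrix.of_apply, Real.norm_eq_abs]
    have := hb4 k
    have := hb2 k
    have := le_abs_self (b k k)
    linarith
  have hcomb : ∀ c0 c1 c2 : ℝ, ¬ (c0 = 0 ∧ c1 = 0 ∧ c2 = 0) →
      c0 • b 0 + c1 • b 1 + c2 • b 2 ≠ 0 := by
    intro c0 c1 c2 hc h
    have h1 : Matrix.vecMul ![c0, c1, c2] (Matrix.of b) = 0 := by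
      ext j
      have := congrFun h j
      simp only [Pi.add_apply, Pi.smul_apply, smul_eq_mul, Pi.zero_apply] at this
      simp only [Matrix.vecMul, dotProduct, Fin.sum_univ_three, Matrix.of_apply, Pi.zero_apply]
      simpa using this
    have h2 := Matrix.eq_zero_of_vecMul_eq_zero hdetne h1
    apply hc
    refine ⟨?_, ?_, ?_⟩
    · simpa using congrFun h2 0
    · simpa using congrFun h2 1
    · simpa using congrFun h2 2
  have hmem : ∀ c0 c1 c2 : ℤ, (c0 : ℝ) • b 0 + (c1 : ℝ) • b 1 + (c2 : ℝ) • b 2 ∈ L := by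
    intro c0 c1 c2
    rw [Int.cast_smul_eq_zsmul, Int.cast_smul_eq_zsmul, Int.cast_smul_eq_zsmul]
    exact L.add_mem (L.add_mem (L.smul_mem _ (hbL 0)) (L.smul_mem _ (hbL 1)))
      (L.smul_mem _ (hbL 2))
  have hout : ∀ c0 c1 c2 : ℤ, ¬ (c0 = 0 ∧ c1 = 0 ∧ c2 = 0) →
      OutDK Q ((c0 : ℝ) * b 0 0 + c1 * b 1 0 + c2 * b 2 0)
        ((c0 : ℝ) * b 0 1 + c1 * b 1 1 + c2 * b 2 1)
        ((c0 : ℝ) * b 0 2 + c1 * b 1 2 + c2 * b 2 2) := by
    intro c0 c1 c2 hc
    have h := hLK _ (hmem c0 c1 c2) (hcomb _ _ _ (by exact_mod_cast hc))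
    simpa using h
  have hyp : Hyp Q (53 / 20) (b 0 0) (b 0 1) (b 0 2) (b 1 0) (b 1 1) (b 1 2) (b 2 0) (b 2 1)
      (b 2 2) := by
    refine ⟨q0, q1, q2, p0.le, p1.le, p2.le, R0.le, R1.le, R2.le, hout, ?_, ?_, ?_, ?_⟩
    · obtain ⟨P, a1, a2, a3⟩ := f0
      exact ⟨_, _, _, a1, a2, outAll_of hmem a3⟩
    · obtain ⟨P, a1, a2, a3⟩ := f1
      exact ⟨_, _, _, a1, a2, outAll_of hmem a3⟩
    · obtain ⟨P, a1, a2, a3⟩ := f2
      exact ⟨_, _, _, a1, a2, outAll_of hmem a3⟩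
    · obtain ⟨P, a1, a2, a3⟩ := f3
      exact ⟨_, _, _, a1, a2, outAll_of hmem a3⟩
  have hcore := hcore _ _ _ _ _ _ _ _ _ hyp
  have hdet3 : (Matrix.of b).det =
      det3 (b 0 0) (b 0 1) (b 0 2) (b 1 0) (b 1 1) (b 1 2) (b 2 0) (b 2 1) (b 2 2) := by
    rw [Matrix.det_fin_three]
    simp only [Matrix.of_apply]
    unfold det3
    ring
  have hcore2 : 2999 / 400 ≤
      det3 (b 0 0) (b 0 1) (b 0 2) (b 1 0) (b 1 1) (b 1 2) (b 2 0) (b 2 1) (b 2 2) := hcore
  have hub := det_abs_le q0 q1 q2 p0.le p1.le p2.le R0.le R1.le R2.le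
  rw [← hdet3] at hcore2 hub
  obtain ⟨C, hCdet, hCw⟩ := exists_coord L b hbL
  rw [hCdet] at hub
  have hC3 : |(C.det : ℝ)| < 4 := by
    by_contra hc
    push Not at hc
    nlinarith
  have hC3' : |C.det| < 4 := by exact_mod_cast hC3
  have hC0 : C.det ≠ 0 := by
    intro h
    rw [h] at hCdet
    simp at hCdet
    exact hdetne hCdet
  have hC1 : ¬ |C.det| = 1 := by
    intro h
    have h' : |(C.det : ℝ)| = 1 := by exact_mod_cast h
    rw [h', one_mul] at hCdet
    rw [← hCdet] at hlt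
    exact absurd (le_trans hcore2 (le_abs_self _)) (not_le.2 hlt)
  have hC4 : |C.det| = 2 ∨ |C.det| = 3 := by
    have : 0 < |C.det| := abs_pos.2 hC0
    omega
  obtain ⟨A1, A2, A3, A4⟩ := abs4 R0
  obtain ⟨B1, B2, B3, B4⟩ := abs4 R1
  obtain ⟨D1, D2, D3, D4⟩ := abs4 R2
  rcases hC4 with hC2 | hC2
  · have hC2 : |C.det| = 2 := hC2
    have hdvd : (2 : ℤ) ∣ C.det := by
      rw [← dvd_abs, hC2]
    obtain ⟨r, hr01, hr0, hrC⟩ := exists_even_comb C hdvd
    obtain ⟨w, hwL, hw⟩ := hCw 2 r hrC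
    rw [Fin.sum_univ_three] at hw
    have hwj : ∀ j, w j = ((r 0 : ℝ) * b 0 j + r 1 * b 1 j + r 2 * b 2 j) / 2 := by
      intro j
      have := congrFun hw j
      push_cast at this
      simp only [Pi.add_apply, Pi.smul_apply, smul_eq_mul] at this
      linarith
    -- shifting by lattice vectors
    have hshift : ∀ c0 c1 c2 : ℤ, ¬ ((r 0 - 2 * c0 : ℤ) = 0 ∧ (r 1 - 2 * c1 : ℤ) = 0 ∧
        (r 2 - 2 * c2 : ℤ) = 0) →
        OutD ((((r 0 : ℝ) - 2 * c0) * b 0 0 + (r 1 - 2 * c1) * b 1 0 + (r 2 - 2 * c2) * b 2 0) / 2)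
          ((((r 0 : ℝ) - 2 * c0) * b 0 1 + (r 1 - 2 * c1) * b 1 1 + (r 2 - 2 * c2) * b 2 1) / 2)
          ((((r 0 : ℝ) - 2 * c0) * b 0 2 + (r 1 - 2 * c1) * b 1 2 + (r 2 - 2 * c2) * b 2 2) / 2) := by
      intro c0 c1 c2 hc
      have hm := L.sub_mem hwL (hmem c0 c1 c2)
      have hne : w - ((c0 : ℝ) • b 0 + (c1 : ℝ) • b 1 + (c2 : ℝ) • b 2) ≠ 0 := by
        intro h
        have h2 := hcomb ((r 0 : ℝ) - 2 * c0) ((r 1 : ℝ) - 2 * c1) ((r 2 : ℝ) - 2 * c2)
          (by exact_mod_cast hc)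
        apply h2
        ext j
        have h3 := congrFun h j
        simp only [Pi.sub_apply, Pi.add_apply, Pi.smul_apply, smul_eq_mul, Pi.zero_apply,
          hwj j] at h3 ⊢
        linarith
      have h := hL _ hm hne
      simp only [Pi.sub_apply, Pi.add_apply, Pi.smul_apply, smul_eq_mul, hwj] at h
      convert h using 1 <;> ring
    have single : ∀ x y z : ℝ, |x| + |y| + |z| < 4 → ¬ OutD (x / 2) (y / 2) (z / 2) := by
      intro x y z hxyz h
      unfold OutD at h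
      simp only [abs_div, abs_two] at h
      have := abs_nonneg x
      have := abs_nonneg y
      have := abs_nonneg z
      rcases h with h | h | h | h <;> linarith
    rcases hr01 0 with e0 | e0 <;> rcases hr01 1 with e1 | e1 <;> rcases hr01 2 with e2 | e2
    · apply hr0
      ext i
      fin_cases i
      · exact e0
      · exact e1
      · exact e2
    · have h := hshift 0 0 0 (by rw [e0, e1, e2]; norm_num)
      rw [e0, e1, e2] at h
      norm_num at h
      exact single _ _ _ (hb4 2) h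
    · have h := hshift 0 0 0 (by rw [e0, e1, e2]; norm_num)
      rw [e0, e1, e2] at h
      norm_num at h
      exact single _ _ _ (hb4 1) h
    · have h := hshift 0 0 0 (by rw [e0, e1, e2]; norm_num)
      have g := hshift 0 0 1 (by rw [e0, e1, e2]; norm_num)
      rw [e0, e1, e2] at h g
      norm_num at h g
      refine no_half2 (m11 := b 1 1) (m12 := b 1 2) (m13 := b 1 0) (m21 := b 2 1) (m22 := b 2 2)
        (m23 := b 2 0) q1 q2 p1.le p2.le (by linarith) (by linarith) (by linarith) (by linarith)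
        (by linarith) (by linarith) (by linarith) (by linarith) ?_ ?_
      · exact (outD_swap23 (outD_swap12 h))
      · convert (outD_swap23 (outD_swap12 g)) using 1 <;> ring
    · have h := hshift 0 0 0 (by rw [e0, e1, e2]; norm_num)
      rw [e0, e1, e2] at h
      norm_num at h
      exact single _ _ _ (hb4 0) h
    · have h := hshift 0 0 0 (by rw [e0, e1, e2]; norm_num)
      have g := hshift 0 0 1 (by rw [e0, e1, e2]; norm_num)
      rw [e0, e1, e2] at h g
      norm_num at h g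
      refine no_half2 (m11 := b 0 0) (m12 := b 0 2) (m13 := b 0 1) (m21 := b 2 0) (m22 := b 2 2)
        (m23 := b 2 1) q0 q2 p0.le p2.le (by linarith) (by linarith) (by linarith) (by linarith)
        (by linarith) (by linarith) (by linarith) (by linarith) ?_ ?_
      · exact (outD_swap23 h)
      · convert (outD_swap23 g) using 1 <;> ring
    · have h := hshift 0 0 0 (by rw [e0, e1, e2]; norm_num)
      have g := hshift 0 1 0 (by rw [e0, e1, e2]; norm_num)
      rw [e0, e1, e2] at h g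
      norm_num at h g
      refine no_half2 (m11 := b 0 0) (m12 := b 0 1) (m13 := b 0 2) (m21 := b 1 0) (m22 := b 1 1)
        (m23 := b 1 2) q0 q1 p0.le p1.le (by linarith) (by linarith) (by linarith) (by linarith)
        (by linarith) (by linarith) (by linarith) (by linarith) ?_ ?_
      · exact h
      · convert g using 1 <;> ring
    · have h := hshift 0 0 0 (by rw [e0, e1, e2]; norm_num)
      have g := hshift 0 0 1 (by rw [e0, e1, e2]; norm_num)
      have f := hshift 0 1 0 (by rw [e0, e1, e2]; norm_num)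
      have k := hshift 0 1 1 (by rw [e0, e1, e2]; norm_num)
      rw [e0, e1, e2] at h g f k
      norm_num at h g f k
      refine no_half q0 q1 q2 p0.le p1.le p2.le A1 A2 A3 A4 B1 B2 B3 B4 D1 D2 D3 D4 ?_ ?_ ?_ ?_
      · exact h
      · convert g using 1 <;> ring
      · convert f using 1 <;> ring
      · convert k using 1 <;> ring
  · have hdvd : (3 : ℤ) ∣ C.det := by
      rw [← dvd_abs, hC2]
    obtain ⟨r, hr01, hr0, hrC⟩ := exists_comb3 C hdvd
    obtain ⟨w, hwL, hw⟩ := hCw 3 r hrC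
    rw [Fin.sum_univ_three] at hw
    have hwj : ∀ j, w j = ((r 0 : ℝ) * b 0 j + r 1 * b 1 j + r 2 * b 2 j) / 3 := by
      intro j
      have := congrFun hw j
      push_cast at this
      simp only [Pi.add_apply, Pi.smul_apply, smul_eq_mul] at this
      linarith
    -- shifting by lattice vectors
    have hshift : ∀ c0 c1 c2 : ℤ, ¬ ((r 0 - 3 * c0 : ℤ) = 0 ∧ (r 1 - 3 * c1 : ℤ) = 0 ∧
        (r 2 - 3 * c2 : ℤ) = 0) →
        OutD ((((r 0 : ℝ) - 3 * c0) * b 0 0 + (r 1 - 3 * c1) * b 1 0 + (r 2 - 3 * c2) * b 2 0) / 3)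
          ((((r 0 : ℝ) - 3 * c0) * b 0 1 + (r 1 - 3 * c1) * b 1 1 + (r 2 - 3 * c2) * b 2 1) / 3)
          ((((r 0 : ℝ) - 3 * c0) * b 0 2 + (r 1 - 3 * c1) * b 1 2 + (r 2 - 3 * c2) * b 2 2) / 3) := by
      intro c0 c1 c2 hc
      have hm := L.sub_mem hwL (hmem c0 c1 c2)
      have hne : w - ((c0 : ℝ) • b 0 + (c1 : ℝ) • b 1 + (c2 : ℝ) • b 2) ≠ 0 := by
        intro h
        have h2 := hcomb ((r 0 : ℝ) - 3 * c0) ((r 1 : ℝ) - 3 * c1) ((r 2 : ℝ) - 3 * c2)
          (by exact_mod_cast hc)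
        apply h2
        ext j
        have h3 := congrFun h j
        simp only [Pi.sub_apply, Pi.add_apply, Pi.smul_apply, smul_eq_mul, Pi.zero_apply,
          hwj j] at h3 ⊢
        linarith
      have h := hL _ hm hne
      simp only [Pi.sub_apply, Pi.add_apply, Pi.smul_apply, smul_eq_mul, hwj] at h
      convert h using 1 <;> ring
    have hne3 : ¬ (r 0 = 0 ∧ r 1 = 0 ∧ r 2 = 0) := by
      rintro ⟨e0, e1, e2⟩
      apply hr0
      ext i
      fin_cases i
      · exact e0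
      · exact e1
      · exact e2
    have key := hshift 0 0 0 (by simpa using hne3)
    simp only [Int.cast_zero, mul_zero, sub_zero] at key
    -- one of the coefficients vanishes
    by_cases hz : r 0 = 0 ∨ r 1 = 0 ∨ r 2 = 0
    · have hx : ∀ x : ℝ, ∀ c : ℤ, (c = -1 ∨ c = 0 ∨ c = 1) → |(c : ℝ) * x| ≤ |x| := by
        rintro x c (h | h | h) <;> subst h <;> simp
      have t : ∀ x y z : ℝ, |(x + y + z) / 3| ≤ (|x| + |y| + |z|) / 3 := by
        intro x y z
        rw [abs_div, abs_of_pos (by norm_num : (0:ℝ) < 3)]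
        have := abs_add_three x y z
        linarith
      have n0 := abs_nonneg (b 0 1)
      have n1 := abs_nonneg (b 0 2)
      have n2 := abs_nonneg (b 1 0)
      have n3 := abs_nonneg (b 1 2)
      have n4 := abs_nonneg (b 2 0)
      have n5 := abs_nonneg (b 2 1)
      have a0 : |b 0 0| = b 0 0 := abs_of_nonneg (by linarith)
      have a1 : |b 1 1| = b 1 1 := abs_of_nonneg (by linarith)
      have a2 : |b 2 2| = b 2 2 := abs_of_nonneg (by linarith)
      have g00 := hx (b 0 0) (r 0) (hr01 0)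
      have g01 := hx (b 0 1) (r 0) (hr01 0)
      have g02 := hx (b 0 2) (r 0) (hr01 0)
      have g10 := hx (b 1 0) (r 1) (hr01 1)
      have g11 := hx (b 1 1) (r 1) (hr01 1)
      have g12 := hx (b 1 2) (r 1) (hr01 1)
      have g20 := hx (b 2 0) (r 2) (hr01 2)
      have g21 := hx (b 2 1) (r 2) (hr01 2)
      have g22 := hx (b 2 2) (r 2) (hr01 2)
      have T0 := t (r 0 * b 0 0) (r 1 * b 1 0) (r 2 * b 2 0)
      have T1 := t (r 0 * b 0 1) (r 1 * b 1 1) (r 2 * b 2 1)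
      have T2 := t (r 0 * b 0 2) (r 1 * b 1 2) (r 2 * b 2 2)
      rcases hz with hz | hz | hz
      · rw [hz] at T0 T1 T2 key
        simp only [Int.cast_zero, zero_mul, abs_zero, zero_add] at T0 T1 T2 key
        rcases key with h | h | h | h <;> linarith
      · rw [hz] at T0 T1 T2 key
        simp only [Int.cast_zero, zero_mul, abs_zero, add_zero] at T0 T1 T2 key
        rcases key with h | h | h | h <;> linarith
      · rw [hz] at T0 T1 T2 key
        simp only [Int.cast_zero, zero_mul, abs_zero, add_zero] at T0 T1 T2 key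
        rcases key with h | h | h | h <;> linarith
    · push Not at hz
      have hr1 : ∀ i, r i ≠ 0 → r i = -1 ∨ r i = 1 := by
        intro i hi
        rcases hr01 i with h | h | h
        · exact Or.inl h
        · exact absurd h hi
        · exact Or.inr h
      have hs : ∀ i, r i ≠ 0 → ((r i : ℤ) : ℝ) = -1 ∨ ((r i : ℤ) : ℝ) = 1 := by
        intro i hi
        rcases hr1 i hi with h | h <;> rw [h] <;> norm_num
      have k0 := hshift (r 0) 0 0 (by intro h; apply hz.1; omega)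
      have k1 := hshift 0 (r 1) 0 (by intro h; apply hz.2.1; omega)
      have k2 := hshift 0 0 (r 2) (by intro h; apply hz.2.2; omega)
      simp only [Int.cast_zero, mul_zero, sub_zero] at k0 k1 k2
      refine no_third_sign (hs 0 hz.1) (hs 1 hz.2.1) (hs 2 hz.2.2) q0 q1 q2 p0.le p1.le p2.le
        R0 R1 R2 key ?_ ?_ ?_
      · convert k0 using 1 <;> ring
      · convert k1 using 1 <;> ring
      · convert k2 using 1 <;> ring

end Pool.Agent.Helper84.KBL
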